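import Pool.Agent.R593.Sn.Names

/-!
# The sentence about capturing in blocks
-/

set_option autoImplicit false
set_option linter.unusedSectionVars false

namespace Pool.Agent.R593.Sn

open Classical Cardinal Pool.Agent.Helper669.Forcing

variable {M I W : Type} {rs : I → Prop} [LinearOrder W] [WellFoundedLT W]
  {Γ : Par M W rs}

/-- the name of the block boundaries -/
def lamN (Γ : Par M W rs) (B : Nm M rs) : ℕ → ℕ → Set (PP Γ) := fun m u =>
  {r | ∃ φ : ℕ → ℕ, (∀ n < lam φ m, Val (le Γ Set.univ) (PP.toC r) B n (φ n)) ∧ lam φ m = u}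

/-- the value of a finite partial function -/
noncomputable def valE (e : Finset (ℕ × ℕ)) (n : ℕ) : ℕ :=
  if h : ∃ c, (n, c) ∈ e then h.choose else 0

theorem valE_eq {e : Finset (ℕ × ℕ)} (he : Fnl e) {n c : ℕ} (h : (n, c) ∈ e) : valE e n = c := by
  have hex : ∃ c, (n, c) ∈ e := ⟨c, h⟩
  unfold valE
  rw [dif_pos hex]
  exact he _ hex.choose_spec _ h rfl

/-- the name of the function added at the coordinate `j` -/
noncomputable def yN (Γ : Par M W rs) (B : Nm M rs) (j : I) : ℕ → ℕ → Set (PP Γ) := fun n v =>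
  {r | ∃ (φ : ℕ → ℕ) (i : ℕ), (∀ n' < lam φ (i + 1), Val (le Γ Set.univ) (PP.toC r) B n' (φ n')) ∧
    lam φ i ≤ n ∧ n < lam φ (i + 1) ∧ i < (PP.toC r j).stem.length ∧
    valE ((PP.toC r j).stem.getD i ∅) n = v}

theorem isFun_lamN (B : Nm M rs) (p : PP Γ) : p ∈ IsFun (lamN Γ B) := by
  refine isFun_of p (fun r _ m => ?_) ?_
  · obtain ⟨r', hr', φ, hφ⟩ := Val.decide_block (Γ := Γ) low_univ B m (PP.toC r)
    exact ⟨(r' : PP Γ), hr', lam φ m, φ, hφ, rfl⟩
  · rintro r m v v' s s' ⟨φ, h1, rfl⟩ ⟨φ', h2, rfl⟩ hs hs'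
    exact lam_congr m (lam_agree (V := fun n v => Val (le Γ Set.univ) (PP.toC r) B n v)
      (fun n v v' h h' => h.unique h') (fun n hn => (h1 n hn).mono low_univ hs)
      (fun n hn => (h2 n hn).mono low_univ hs'))

/-- common extensions of conditions deciding two named sets -/
theorem meets2 {N N' : Set (PP Γ)} {r : PP Γ} (h : r ∈ meets N) (h' : r ∈ meets N') :
    ∃ t ≤ r, ∃ s ∈ N, ∃ s' ∈ N', t ≤ s ∧ t ≤ s' := by
  obtain ⟨s, hs, z, hz, hsz⟩ := h r le_rfl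
  obtain ⟨s', hs', z', hz', hsz'⟩ := h' s hs
  exact ⟨s', hs'.trans hs, z, hz, z', hz', hs'.trans hsz, hsz'⟩

theorem incr_lamN (B : Nm M rs) (p : PP Γ) : p ∈ IncrN (lamN Γ B) := by
  intro m u u'
  refine mem_fimp.2 fun r hr h => ⟨r, le_rfl, ?_⟩
  obtain ⟨t, -, s, ⟨φ, h1, rfl⟩, s', ⟨φ', h2, rfl⟩, hs, hs'⟩ := meets2 h.1 h.2
  show lam φ m < lam φ' (m + 1)
  have h3 : lam φ m = lam φ' m := lam_congr m
    (lam_agree (V := fun n v => Val (le Γ Set.univ) (PP.toC t) B n v)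
      (fun n v v' h h' => h.unique h') (fun n hn => (h1 n hn).mono low_univ hs)
      (fun n hn => (h2 n (hn.trans (lam_strictMono φ' (Nat.lt_succ_self m)))).mono low_univ hs'))
  rw [h3]
  exact lam_strictMono φ' (Nat.lt_succ_self m)

theorem exists_block (φ : ℕ → ℕ) (n : ℕ) : ∃ i ≤ n, lam φ i ≤ n ∧ n < lam φ (i + 1) := by
  have hex : ∃ i, n < lam φ (i + 1) := ⟨n, lt_of_lt_of_le (Nat.lt_succ_self n)
    ((lam_strictMono φ).le_apply)⟩
  refine ⟨Nat.find hex, Nat.find_min' hex (lt_of_lt_of_le (Nat.lt_succ_self n)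
    ((lam_strictMono φ).le_apply)), ?_, Nat.find_spec hex⟩
  rcases Nat.eq_zero_or_pos (Nat.find hex) with h | h
  · rw [h]
    exact Nat.zero_le _
  · obtain ⟨i, hi⟩ : ∃ i, Nat.find hex = i + 1 := ⟨Nat.find hex - 1, by omega⟩
    have h1 := Nat.find_min hex (m := i) (by omega)
    rw [hi]
    omega

theorem isFun_yN (B : Nm M rs) (j : I) (p : PP Γ) : p ∈ IsFun (yN Γ B j) := by
  refine isFun_of p (fun r _ n => ?_) ?_
  · obtain ⟨r1, hr1, φ, hφ⟩ := Val.decide_block (Γ := Γ) low_univ B (n + 1) (PP.toC r)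
    obtain ⟨i, hin, hi1, hi2⟩ := exists_block φ n
    obtain ⟨r2, hr2, hlen, -⟩ := ext_long Γ j (i + 1) r1
    refine ⟨(r2 : PP Γ), le_trans' low_univ hr2 hr1, valE ((r2 j).stem.getD i ∅) n, φ, i,
      fun n' hn' => (hφ n' ?_).mono low_univ hr2, hi1, hi2,
      (show i < (r2 j).stem.length by omega), rfl⟩
    exact lt_of_lt_of_le hn' ((lam_strictMono φ).monotone (by omega))
  · rintro r n v v' s s' ⟨φ, i, h1, h2, h3, h4, rfl⟩ ⟨φ', i', h1', h2', h3', h4', rfl⟩ hs hs'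
    have hV : ∀ n v v', Val (le Γ Set.univ) (PP.toC r) B n v →
        Val (le Γ Set.univ) (PP.toC r) B n v' → v = v' := fun n v v' h h' => h.unique h'
    have g1 : ∀ n' < lam φ (i + 1), Val (le Γ Set.univ) (PP.toC r) B n' (φ n') := fun n' hn' =>
      (h1 n' hn').mono low_univ hs
    have g2 : ∀ n' < lam φ' (i' + 1), Val (le Γ Set.univ) (PP.toC r) B n' (φ' n') :=
      fun n' hn' => (h1' n' hn').mono low_univ hs'
    have key : i = i' := by
      rcases lt_trichotomy i i' with h | h | h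
      · exfalso
        have g3 := lam_congr (i + 1) (lam_agree hV g1 fun n' hn' => g2 n' (lt_of_lt_of_le hn'
          ((lam_strictMono φ').monotone (by omega))))
        have g4 := (lam_strictMono φ').monotone (show i + 1 ≤ i' from h)
        omega
      · exact h
      · exfalso
        have g3 := lam_congr (i' + 1) (lam_agree hV g2 fun n' hn' => g1 n' (lt_of_lt_of_le hn'
          ((lam_strictMono φ).monotone (by omega))))
        have g4 := (lam_strictMono φ).monotone (show i' + 1 ≤ i from h)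
        omega
    subst key
    rw [getD_eq_of_common (c := PP.toC r) hs hs' h4 h4']

theorem decide_vals (X : Nm M rs) (U : ℕ) (t : Cond M rs) :
    ∃ t', le Γ Set.univ t' t ∧ ∃ ξ : ℕ → ℕ, ∀ n < U, Val (le Γ Set.univ) t' X n (ξ n) := by
  obtain ⟨t', h1, ξ, h2⟩ := Val.decideU (Γ := Γ) (M := M) low_univ ∅ (fun _ => none) 0 t
  clear h2
  induction U with
  | zero => exact ⟨t, le_refl' _ t, fun _ => 0, fun n hn => absurd hn (Nat.not_lt_zero n)⟩
  | succ U ih =>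
    obtain ⟨t1, h1, ξ, h2⟩ := ih
    obtain ⟨t2, h3, v, hv⟩ := Val.dense (Γ := Γ) low_univ t1 X U
    refine ⟨t2, le_trans' low_univ h3 h1, Function.update ξ U v, fun n hn => ?_⟩
    by_cases hnU : n = U
    · subst hnU
      rw [Function.update_self]
      exact hv
    · rw [Function.update_of_ne hnU]
      exact (h2 n (by omega)).mono low_univ h3

theorem catches (hG : Good Γ) {j : I} (hj : rs j) {m : M} {X : Nm M rs}
    (hreq : Γ.req j m = some X) (b x : ℕ → ℕ → Set (PP Γ)) (q : PP Γ)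
    (hB : ∀ q' : PP Γ, q' ≤ q → ∀ n v, Val (le Γ Set.univ) q' (Γ.bnd j) n v → q' ∈ meets (b n v))
    (hX : ∀ q' : PP Γ, q' ≤ q → ∀ n v, Val (le Γ Set.univ) q' X n v → q' ∈ meets (x n v))
    (hlt : q ∈ BelowN x b) : q ∈ CatchN (lamN Γ (Γ.bnd j)) (yN Γ (Γ.bnd j) j) x := by
  refine mem_fex.2 fun r hr => ?_
  obtain ⟨r1, hr1, hm⟩ := add_promise (Γ := Γ) j m (PP.toC r)
  have hr1r : (@LE.le (PP Γ) _ r1 r) := hr1
  refine ⟨r1, hr1r, (r1 j).stem.length, ?_⟩
  intro i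
  refine mem_fimp.2 fun R2 hR2 hn => ⟨R2, le_rfl, ?_⟩
  have hn' : (r1 j).stem.length ≤ i := hn
  refine mem_fex.2 fun R3 hR3 => ?_
  obtain ⟨a1, ha1, hl1, -⟩ := ext_long Γ j (i + 1) (PP.toC R3)
  obtain ⟨a2, ha2, φ, hφ⟩ := Val.decide_block (Γ := Γ) low_univ (Γ.bnd j) (i + 1) a1
  obtain ⟨a3, ha3, ξ, hξ⟩ := decide_vals (Γ := Γ) X (lam φ (i + 1)) a2
  have hφ3 : ∀ n < lam φ (i + 1), Val (le Γ Set.univ) a3 (Γ.bnd j) n (φ n) := fun n hn =>
    (hφ n hn).mono low_univ ha3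
  have h3R3 : (@LE.le (PP Γ) _ a3 R3) := le_trans' low_univ (le_trans' low_univ ha3 ha2) ha1
  have h3r1 : (@LE.le (PP Γ) _ a3 r1) := h3R3.trans (hR3.trans hR2)
  have h3q : (@LE.le (PP Γ) _ a3 q) := h3r1.trans (hr1r.trans hr)
  have hlj : i < (a3 j).stem.length :=
    lt_of_lt_of_le hl1 (length_le j (le_trans' low_univ ha3 ha2))
  have hlt' : ∀ n < lam φ (i + 1), ξ n < φ n := by
    intro n hn
    obtain ⟨s, _, hs⟩ := mem_fimp.1 (hlt n (ξ n) (φ n)) a3 h3q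
      ⟨hX a3 h3q n _ (hξ n hn), hB a3 h3q n _ (hφ3 n hn)⟩
    exact hs
  obtain ⟨z, hz1, hz2, hz3, hz4⟩ := promise_kept' hG hj hreq hm h3r1 hn' hlj hφ3 hξ hlt'
  refine ⟨(a3 : PP Γ), h3R3, z.1, ?_, ?_, ?_⟩
  · refine mem_fex_of_mem (lam φ i) (down_fand (down_meets _) (down_fground _)) ⟨?_, hz2⟩
    exact meets_of_mem (P := PP Γ) (N := lamN Γ (Γ.bnd j) i _) (p := a3)
      ⟨φ, fun n hn => hφ3 n (hn.trans (lam_strictMono φ (Nat.lt_succ_self i))), rfl⟩
  · refine mem_fex_of_mem (lam φ (i + 1)) (down_fand (down_meets _) (down_fground _)) ⟨?_, hz3⟩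
    exact meets_of_mem (P := PP Γ) (N := lamN Γ (Γ.bnd j) (i + 1) _) (p := a3) ⟨φ, hφ3, rfl⟩
  · refine mem_fex_of_mem z.2 (down_fand (down_meets _) (down_meets _)) ⟨?_, ?_⟩
    · exact meets_of_mem (P := PP Γ) (N := yN Γ (Γ.bnd j) j z.1 z.2) (p := a3)
        ⟨φ, i, hφ3, hz2, hz3, hlj, valE_eq ((a3.legit hj).2 i) hz1⟩
    · rw [← hz4]
      exact hX a3 h3q z.1 _ (hξ _ hz3)

theorem forced_blockCap (hG : Good Γ) (hccc : CCC Γ) (K : Type)
    (hreq : ∀ (B : Nm M rs) (x : K → Nm M rs), ∃ j, rs j ∧ Γ.bnd j = B ∧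
      ∀ k, ∃ m, Γ.req j m = some (x k)) (p : PP Γ) : p ∈ BlockCapN (PP Γ) K := by
  intro b
  refine mem_fimp.2 fun q hq hb => ⟨q, le_rfl, ?_⟩
  obtain ⟨B, hB⟩ := rawF Γ hccc b q hb
  have hdown : ∀ lam y : ℕ → ℕ → Set (PP Γ), ∀ z : K → ℕ → ℕ → Set (PP Γ),
      Down (fand (IsFun y) (fall fun k => CatchN lam y (z k))) := fun lam y z =>
    down_fand (down_IsFun _) (down_fall fun _ => down_fex _)
  refine mem_fex_of_mem (lamN Γ B) (down_fand (down_IsFun _) (down_fand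
    (down_fall fun _ => down_fall fun _ => down_fall fun _ => down_fimp _ _)
    (down_fall fun _ => down_fimp _ _))) ⟨isFun_lamN B q, incr_lamN B q, fun z => ?_⟩
  refine mem_fimp.2 fun r hr hz => ⟨r, le_rfl, ?_⟩
  choose X hX using fun k => rawF Γ hccc (z k) r (hz k).1
  obtain ⟨j, hj, hjB, hjm⟩ := hreq B X
  refine mem_fex_of_mem (yN Γ B j) (hdown _ _ _) ⟨isFun_yN B j r, fun k => ?_⟩
  obtain ⟨m, hm⟩ := hjm k
  have := catches hG hj hm b (z k) r (by
    rw [hjB]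
    exact fun q' hq' => hB q' (hq'.trans hr)) (hX k) (hz k).2
  rw [hjB] at this
  exact this

end Pool.Agent.R593.Sn
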