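import Mathlib

/-!
# Blocks, and finite partial functions hitting given functions

For a bound `φ` the natural numbers are divided into the blocks `[lam φ i, lam φ (i + 1))`, which
are long compared with the number of sequences below `φ` of a length slightly longer than
`lam φ i`.
-/

set_option autoImplicit false

namespace Pool.Agent.R593.Sn

open Classical

/-- The beginning of the block `m` for the bound `φ`. -/
def lam (φ : ℕ → ℕ) : ℕ → ℕ
  | 0 => 0
  | m + 1 => lam φ m + 2 ^ (∏ n ∈ Finset.range (lam φ m + m), (φ n + 2)) * (m + 1)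

/-- the number of patterns before the position `lam φ m + m` -/
def nn (φ : ℕ → ℕ) (m : ℕ) : ℕ := ∏ n ∈ Finset.range (lam φ m + m), (φ n + 2)

variable {φ φ' : ℕ → ℕ}

theorem lam_succ (φ : ℕ → ℕ) (m : ℕ) : lam φ (m + 1) = lam φ m + 2 ^ nn φ m * (m + 1) := rfl

theorem lam_add_lt (φ : ℕ → ℕ) (m : ℕ) : lam φ m + m < lam φ (m + 1) := by
  rw [lam_succ]
  have h : 1 ≤ 2 ^ nn φ m := Nat.one_le_two_pow
  have : m + 1 ≤ 2 ^ nn φ m * (m + 1) := Nat.le_mul_of_pos_left _ h
  omega

theorem lam_strictMono (φ : ℕ → ℕ) : StrictMono (lam φ) :=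
  strictMono_nat_of_lt_succ fun m => by
    have := lam_add_lt φ m
    omega

theorem lam_congr : ∀ (m : ℕ), (∀ n < lam φ m, φ n = φ' n) → lam φ m = lam φ' m := by
  intro m
  induction m with
  | zero => intro _; rfl
  | succ m ih =>
    intro h
    have h1 : lam φ m + m < lam φ (m + 1) := lam_add_lt φ m
    have h2 : lam φ m = lam φ' m := ih fun n hn => h n (by omega)
    rw [lam_succ, lam_succ, ← h2]
    congr 2
    unfold nn
    rw [← h2]
    congr 1
    exact Finset.prod_congr rfl fun n hn => by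
      rw [h n (by have := Finset.mem_range.1 hn; omega)]

theorem nn_congr {m : ℕ} (h : ∀ n < lam φ (m + 1), φ n = φ' n) : nn φ m = nn φ' m := by
  have h1 : lam φ m + m < lam φ (m + 1) := lam_add_lt φ m
  have h2 : lam φ m = lam φ' m := lam_congr m fun n hn => h n (by omega)
  unfold nn
  rw [← h2]
  exact Finset.prod_congr rfl fun n hn => by
    rw [h n (by have := Finset.mem_range.1 hn; omega)]

theorem lt_nn (φ : ℕ → ℕ) (m : ℕ) : m < nn φ m := by
  have h1 : 2 ^ (lam φ m + m) ≤ nn φ m := by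
    unfold nn
    calc 2 ^ (lam φ m + m) = ∏ _n ∈ Finset.range (lam φ m + m), 2 := by simp
      _ ≤ _ := Finset.prod_le_prod' fun n _ => Nat.le_add_left 2 _
  have h2 : lam φ m + m < 2 ^ (lam φ m + m) := Nat.lt_two_pow_self
  omega

theorem nn_mono (φ : ℕ → ℕ) : Monotone (nn φ) := by
  intro a b hab
  unfold nn
  refine Finset.prod_le_prod_of_subset_of_one_le' ?_ fun _ _ _ => by omega
  rw [Finset.range_subset_range]
  have := (lam_strictMono φ).monotone hab
  omega

/-- the finite set of pairs is the graph of a partial function -/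
def Fnl (e : Finset (ℕ × ℕ)) : Prop := ∀ z ∈ e, ∀ z' ∈ e, z.1 = z'.1 → z.2 = z'.2

theorem fnl_empty : Fnl ∅ := fun z hz => absurd hz (Finset.notMem_empty z)

/-- the partial function `e` agrees with `ξ` at some point of the block `i` -/
def HitE (φ ξ : ℕ → ℕ) (e : Finset (ℕ × ℕ)) (i : ℕ) : Prop :=
  ∃ z ∈ e, lam φ i ≤ z.1 ∧ z.1 < lam φ (i + 1) ∧ ξ z.1 = z.2

theorem exists_enum {M : Type} (F : Finset M) :
    ∃ idx : M → ℕ, (∀ k ∈ F, idx k < F.card) ∧ ∀ k ∈ F, ∀ k' ∈ F, idx k = idx k' → k = k' := by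
  refine ⟨fun k => if h : k ∈ F then (F.equivFin ⟨k, h⟩).val else 0, fun k hk => ?_,
    fun k hk k' hk' h => ?_⟩
  · simp only [dif_pos hk]
    exact (F.equivFin ⟨k, hk⟩).isLt
  · simp only [dif_pos hk, dif_pos hk'] at h
    exact congrArg Subtype.val (F.equivFin.injective (Fin.ext h))

theorem exists_entry {M : Type} (φ : ℕ → ℕ) (ξ : M → ℕ → ℕ) (i : ℕ) (F : Finset M)
    (hF : F.card ≤ 2 ^ nn φ i * (i + 1)) :
    ∃ e, Fnl e ∧ ∀ k ∈ F, HitE φ (ξ k) e i := by
  obtain ⟨idx, h1, h2⟩ := exists_enum F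
  refine ⟨F.image fun k => (lam φ i + idx k, ξ k (lam φ i + idx k)), ?_, ?_⟩
  · intro z hz z' hz' h
    obtain ⟨k, hk, rfl⟩ := Finset.mem_image.1 hz
    obtain ⟨k', hk', rfl⟩ := Finset.mem_image.1 hz'
    have h3 : idx k = idx k' := by
      have h4 : lam φ i + idx k = lam φ i + idx k' := h
      omega
    rw [h2 k hk k' hk' h3]
  · intro k hk
    refine ⟨_, Finset.mem_image_of_mem _ hk, Nat.le_add_right _ _, ?_, rfl⟩
    show lam φ i + idx k < lam φ (i + 1)
    rw [lam_succ]
    have := h1 k hk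
    omega

/-- a pattern for one set of functions -/
theorem exists_pattern {M : Type} (φ : ℕ → ℕ) (ξ : M → ℕ → ℕ) (ℓ : ℕ) (F : Finset M)
    (hF : F.card ≤ ℓ) :
    ∃ g : ℕ → ℕ, (∀ n, g n < φ n + 2) ∧ ∀ k ∈ F, ∀ i, ℓ ≤ i →
      (∀ n < lam φ (i + 1), ξ k n < φ n) →
        ∃ n, lam φ i ≤ n ∧ n < lam φ i + i ∧ g n = ξ k n + 1 := by
  obtain ⟨idx, h1, h2⟩ := exists_enum F
  let Q : ℕ → ℕ × M → Prop := fun n z => ℓ ≤ z.1 ∧ z.2 ∈ F ∧ n = lam φ z.1 + idx z.2 ∧
    ξ z.2 n < φ n
  let g : ℕ → ℕ := fun n => if h : ∃ z, Q n z then ξ h.choose.2 n + 1 else 0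
  refine ⟨g, fun n => ?_, ?_⟩
  · simp only [g]
    split_ifs with h
    · have := h.choose_spec.2.2.2
      omega
    · omega
  · intro k hk i hi hb
    have h3 := h1 k hk
    have h4 := lam_add_lt φ i
    have hlt : lam φ i + idx k < lam φ (i + 1) := by omega
    refine ⟨lam φ i + idx k, by omega, by omega, ?_⟩
    have hex : ∃ z, Q (lam φ i + idx k) z := ⟨(i, k), hi, hk, rfl, hb _ hlt⟩
    simp only [g, dif_pos hex]
    obtain ⟨h5, h6, h7, h8⟩ := hex.choose_spec
    have h9 := h1 _ h6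
    have h10 := lam_add_lt φ hex.choose.1
    have h11 : i = hex.choose.1 := by
      rcases lt_trichotomy i hex.choose.1 with h | h | h
      · have := (lam_strictMono φ).monotone (show i + 1 ≤ hex.choose.1 from h)
        omega
      · exact h
      · have := (lam_strictMono φ).monotone (show hex.choose.1 + 1 ≤ i from h)
        omega
    have h12 : idx k = idx hex.choose.2 := by
      rw [← h11] at h7
      omega
    rw [← h2 k hk _ h6 h12]

/-- the partial function given by a pattern -/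
noncomputable def dec (φ g : ℕ → ℕ) (U i : ℕ) : Finset (ℕ × ℕ) :=
  ((Finset.range U).filter fun n => lam φ i ≤ n ∧ g n ≠ 0).image fun n => (n, g n - 1)

theorem fnl_dec (φ g : ℕ → ℕ) (U i : ℕ) : Fnl (dec φ g U i) := by
  intro z hz z' hz' h
  obtain ⟨n, _, rfl⟩ := Finset.mem_image.1 hz
  obtain ⟨n', _, rfl⟩ := Finset.mem_image.1 hz'
  have h' : n = n' := h
  rw [h']

theorem dec_congr {g g' : ℕ → ℕ} {U : ℕ} (h : ∀ n < U, g n = g' n) (i : ℕ) :
    dec φ g U i = dec φ g' U i := by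
  unfold dec
  ext z
  simp only [Finset.mem_image, Finset.mem_filter, Finset.mem_range]
  constructor
  · rintro ⟨n, ⟨h1, h2, h3⟩, rfl⟩
    exact ⟨n, ⟨h1, h2, by rw [← h n h1]; exact h3⟩, by rw [h n h1]⟩
  · rintro ⟨n, ⟨h1, h2, h3⟩, rfl⟩
    exact ⟨n, ⟨h1, h2, by rw [h n h1]; exact h3⟩, by rw [h n h1]⟩

/-- The entries which are used for merging: either a part of the conditions is kept, or the
conditions have the same promises. -/
theorem merge_entries {α M : Type} (φ : ℕ → ℕ) (ξ : M → ℕ → ℕ) (ℓ n N : ℕ) (hN : 1 ≤ N)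
    (Z : Finset α) (F : α → Finset M) (hF : ∀ a ∈ Z, (F a).card ≤ ℓ)
    (h : (N * (n + 1) ≤ Z.card ∧ N ≤ 2 ^ n) ∨
      (N ≤ Z.card ∧ ∀ a ∈ Z, ∀ a' ∈ Z, F a = F a')) :
    ∃ Z' ⊆ Z, Z'.card = N ∧ ∃ E : ℕ → Finset (ℕ × ℕ), (∀ i, Fnl (E i)) ∧
      ∀ a ∈ Z', ∀ k ∈ F a, ∀ i, ℓ ≤ i → (∀ n < lam φ (i + 1), ξ k n < φ n) →
        HitE φ (ξ k) (E i) i := by
  rcases h with ⟨hZ, hN2⟩ | ⟨hZ, hsame⟩
  · -- a part of the conditions
    obtain ⟨m1, hm1, hm2, hm3⟩ : ∃ m1, ℓ ≤ m1 ∧ n < nn φ m1 ∧ ∀ m, ℓ ≤ m → m < m1 →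
        nn φ m ≤ n := by
      have hex : ∃ m, ℓ ≤ m ∧ n < nn φ m :=
        ⟨max ℓ n, le_max_left _ _, lt_of_le_of_lt (le_max_right ℓ n) (lt_nn φ _)⟩
      refine ⟨Nat.find hex, (Nat.find_spec hex).1, (Nat.find_spec hex).2, fun m h1 h2 => ?_⟩
      by_contra hcon
      push Not at hcon
      exact Nat.find_min hex h2 ⟨h1, hcon⟩
    -- the patterns
    have hpat : ∀ a, ∃ g : ℕ → ℕ, (∀ n, g n < φ n + 2) ∧ (a ∈ Z → ∀ k ∈ F a, ∀ i, ℓ ≤ i →
        (∀ n < lam φ (i + 1), ξ k n < φ n) →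
          ∃ n, lam φ i ≤ n ∧ n < lam φ i + i ∧ g n = ξ k n + 1) := by
      intro a
      by_cases ha : a ∈ Z
      · obtain ⟨g, h1, h2⟩ := exists_pattern φ ξ ℓ (F a) (hF a ha)
        exact ⟨g, h1, fun _ => h2⟩
      · exact ⟨fun _ => 0, fun n => Nat.succ_pos _, fun h => absurd h ha⟩
    choose g hg1 hg2 using hpat
    -- the length of the patterns
    let U : ℕ := if ℓ < m1 then lam φ (m1 - 1) + (m1 - 1) else 0
    obtain ⟨y, Z2, hZ2, hZ2c, hy⟩ : ∃ (y : Fin U → ℕ) (Z2 : Finset α), Z2 ⊆ Z ∧ N ≤ Z2.card ∧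
        ∀ a ∈ Z2, (fun i : Fin U => g a i) = y := by
      let t : Finset (Fin U → ℕ) := Fintype.piFinset fun i : Fin U => Finset.range (φ i + 2)
      have ht : t.card = ∏ i ∈ Finset.range U, (φ i + 2) := by
        simp only [t, Fintype.card_piFinset, Finset.card_range]
        exact Fin.prod_univ_eq_prod_range (fun i => φ i + 2) U
      have htn : t.card ≤ n + 1 := by
        rw [ht]
        by_cases hlt : ℓ < m1
        · have h1 := hm3 (m1 - 1) (by omega) (by omega)
          have h2 : U = lam φ (m1 - 1) + (m1 - 1) := if_pos hlt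
          rw [h2]
          exact h1.trans (Nat.le_succ n)
        · have h2 : U = 0 := if_neg hlt
          rw [h2]
          simp
      obtain ⟨y, _, hyc⟩ := Finset.exists_le_card_fiber_of_mul_le_card_of_maps_to
        (s := Z) (t := t) (f := fun a => fun i : Fin U => g a i) (n := N) (by
          intro a _
          rw [Fintype.mem_piFinset]
          intro i
          exact Finset.mem_range.2 (hg1 a i)) (by
          rw [← Finset.card_pos, ht]
          exact Finset.prod_pos fun _ _ => by omega) (by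
          calc t.card * N ≤ (n + 1) * N := Nat.mul_le_mul_right _ htn
            _ = N * (n + 1) := mul_comm _ _
            _ ≤ Z.card := hZ)
      exact ⟨y, _, Finset.filter_subset _ _, hyc, fun a ha => (Finset.mem_filter.1 ha).2⟩
    obtain ⟨Z3, hZ3, hc3⟩ := Finset.exists_subset_card_eq hZ2c
    obtain ⟨a0, ha0⟩ : Z3.Nonempty := by
      rw [← Finset.card_pos]
      omega
    have hgU : ∀ a ∈ Z3, ∀ n < U, g a n = g a0 n := by
      intro a ha n hn
      exact congrFun ((hy a (hZ3 ha)).trans (hy a0 (hZ3 ha0)).symm) ⟨n, hn⟩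
    -- the entries after the block `m1`
    have hlate : ∀ i, ∃ e, m1 ≤ i → Fnl e ∧ ∀ k ∈ Z3.biUnion F, HitE φ (ξ k) e i := by
      intro i
      by_cases hi : m1 ≤ i
      · obtain ⟨e, he⟩ := exists_entry φ ξ i (Z3.biUnion F) (by
          calc (Z3.biUnion F).card ≤ Z3.card * ℓ := by
                refine Finset.card_biUnion_le.trans ?_
                exact (Finset.sum_le_card_nsmul _ _ ℓ fun a ha =>
                  hF a (hZ2 (hZ3 ha))).trans (by rw [smul_eq_mul])
            _ ≤ 2 ^ n * ℓ := Nat.mul_le_mul_right _ (hc3.le.trans hN2)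
            _ ≤ 2 ^ nn φ i * (i + 1) := by
                apply Nat.mul_le_mul
                · exact Nat.pow_le_pow_right (by norm_num) (hm2.le.trans (nn_mono φ hi))
                · omega)
        exact ⟨e, fun _ => he⟩
      · exact ⟨∅, fun h => absurd h hi⟩
    choose e he using hlate
    refine ⟨Z3, hZ3.trans hZ2, hc3, fun i => if i < m1 then dec φ (g a0) U i else e i, ?_, ?_⟩
    · intro i
      by_cases hi : i < m1
      · simp only [if_pos hi]
        exact fnl_dec _ _ _ _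
      · simp only [if_neg hi]
        exact (he i (not_lt.1 hi)).1
    · intro a ha k hk i hi hb
      by_cases hi' : i < m1
      · simp only [if_pos hi']
        obtain ⟨n', h1, h2, h3⟩ := hg2 a (hZ2 (hZ3 ha)) k hk i hi hb
        have hUeq : U = lam φ (m1 - 1) + (m1 - 1) := if_pos (by omega)
        have h4 := (lam_strictMono φ).monotone (show i ≤ m1 - 1 by omega)
        have h5 : n' < U := by omega
        have h6 := lam_add_lt φ i
        refine ⟨(n', ξ k n'), ?_, h1, by show n' < _; omega, rfl⟩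
        refine Finset.mem_image.2 ⟨n', Finset.mem_filter.2 ⟨Finset.mem_range.2 h5, h1, ?_⟩, ?_⟩
        · rw [← hgU a ha n' h5, h3]
          exact Nat.succ_ne_zero _
        · rw [← hgU a ha n' h5, h3]
          rfl
      · simp only [if_neg hi']
        exact (he i (not_lt.1 hi')).2 k (Finset.mem_biUnion.2 ⟨a, ha, hk⟩)
  · -- the same promises
    obtain ⟨Z3, hZ3, hc3⟩ := Finset.exists_subset_card_eq hZ
    obtain ⟨a0, ha0⟩ : Z3.Nonempty := by
      rw [← Finset.card_pos]
      omega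
    have hent : ∀ i, ∃ e, ℓ ≤ i → Fnl e ∧ ∀ k ∈ F a0, HitE φ (ξ k) e i := by
      intro i
      by_cases hi : ℓ ≤ i
      · obtain ⟨e, he⟩ := exists_entry φ ξ i (F a0) (by
          have h1 := hF a0 (hZ3 ha0)
          have h2 : i + 1 ≤ 2 ^ nn φ i * (i + 1) := Nat.le_mul_of_pos_left _ (by positivity)
          omega)
        exact ⟨e, fun _ => he⟩
      · exact ⟨∅, fun h => absurd h hi⟩
    choose e he using hent
    refine ⟨Z3, hZ3, hc3, fun i => if ℓ ≤ i then e i else ∅, ?_, ?_⟩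
    · intro i
      by_cases hi : ℓ ≤ i
      · simp only [if_pos hi]
        exact (he i hi).1
      · simp only [if_neg hi]
        exact fnl_empty
    · intro a ha k hk i hi _
      simp only [if_pos hi]
      refine (he i hi).2 k ?_
      rw [hsame a0 (hZ3 ha0) a (hZ3 ha)]
      exact hk

end Pool.Agent.R593.Sn
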