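import Pool.Agent.R593.Sn.Card

/-!
# Bookkeeping

The coordinates of the iteration are Cohen coordinates `ck k` of the lowest rank, Cohen
coordinates `cw ξ β a` and `cx β` of rank `β`, domination coordinates `dm β a` of rank `β`, and
capturing coordinates `cp β a` of rank `β`. Here `a` is a code for names.
-/

set_option autoImplicit false
set_option linter.unusedSectionVars false

namespace Pool.Agent.R593.Sn

open Classical Cardinal

/-- the coordinates -/
inductive Ix (K L W Λ : Type) : Type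
  | ck (k : K)
  | cw (ξ : L) (β : W) (a : Λ)
  | cx (β : W)
  | dm (β : W) (a : Λ)
  | cp (β : W) (a : Λ)

variable {K L W Λ : Type}

/-- only the capturing coordinates are restricted -/
def rsI (K L W Λ : Type) : Ix K L W Λ → Prop
  | .cp _ _ => True
  | _ => False

/-- the ranks of the coordinates -/
def rkI : Ix K L W Λ → WithBot W
  | .ck _ => ⊥
  | .cw _ β _ => β
  | .cx β => β
  | .dm β _ => β
  | .cp β _ => β

/-- names -/
abbrev NmI (K L W Λ : Type) : Type := Nm (K ⊕ L) (rsI K L W Λ)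

variable [LinearOrder W] [WellFoundedLT W]

/-- the name `x` if it is supported below the rank `β` -/
noncomputable def cutN (β : W) (x : NmI K L W Λ) : NmI K L W Λ :=
  if Supp {i | rkI i < (β : WithBot W)} x then x else fun _ _ => none

theorem supp_cutN (β : W) (x : NmI K L W Λ) :
    Supp {i | rkI i < (β : WithBot W)} (cutN β x) := by
  unfold cutN
  split_ifs with h
  · exact h
  · intro n m u v hu
    exact absurd hu (by simp)

theorem cutN_eq {β : W} {x : NmI K L W Λ} (h : Supp {i | rkI i < (β : WithBot W)} x) :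
    cutN β x = x := if_pos h

/-- the parameters of the iteration; `e` is a coding of families of names -/
noncomputable def GI (e : Λ → Option (K ⊕ L) → NmI K L W Λ) :
    Par (K ⊕ L) (WithBot W) (rsI K L W Λ) where
  rk := rkI
  bnd
    | .cp β a => cutN β (e a none)
    | _ => fun _ _ => none
  req
    | .dm β a, .inr k => some (cutN β (e a (some (.inr k))))
    | .cp β a, .inl k => some (cutN β (e a (some (.inl k))))
    | _, _ => none

variable {e : Λ → Option (K ⊕ L) → NmI K L W Λ}

theorem supp_none (T : Set (Ix K L W Λ)) : Supp T (fun _ _ => none : NmI K L W Λ) :=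
  fun n m u v hu => absurd hu (by simp)

theorem GI_supp (j : Ix K L W Λ) (k : K ⊕ L) (x : NmI K L W Λ) (h : (GI e).req j k = some x) :
    Supp (below (GI e) ((GI e).rk j)) x := by
  cases j with
  | ck z => exact absurd h (by simp [GI])
  | cw z β a => exact absurd h (by simp [GI])
  | cx β => exact absurd h (by simp [GI])
  | dm β a =>
    cases k with
    | inl k => exact absurd h (by simp [GI])
    | inr k =>
      have h1 : some (cutN β (e a (some (.inr k)))) = some x := h
      rw [← Option.some_injective _ h1]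
      exact supp_cutN _ _
  | cp β a =>
    cases k with
    | inr k => exact absurd h (by simp [GI])
    | inl k =>
      have h1 : some (cutN β (e a (some (.inl k)))) = some x := h
      rw [← Option.some_injective _ h1]
      exact supp_cutN _ _

theorem GI_supp_bnd (j : Ix K L W Λ) : Supp (below (GI e) ((GI e).rk j)) ((GI e).bnd j) := by
  cases j with
  | ck z => exact supp_none _
  | cw z β a => exact supp_none _
  | cx β => exact supp_none _
  | dm β a => exact supp_none _
  | cp β a => exact supp_cutN _ _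

theorem GI_small (j : Ix K L W Λ) (h : rsI K L W Λ j) :
    #{k : K ⊕ L | (GI e).req j k ≠ none} ≤ #K := by
  cases j with
  | ck z => exact absurd h id
  | cw z β a => exact absurd h id
  | cx β => exact absurd h id
  | dm β a => exact absurd h id
  | cp β a =>
    have h1 : {z : K ⊕ L | (GI e).req (.cp β a) z ≠ none} ⊆ Set.range (Sum.inl : K → K ⊕ L) := by
      rintro (k | k) hz
      · exact ⟨k, rfl⟩
      · exact absurd rfl hz
    exact (mk_le_mk_of_subset h1).trans mk_range_le

/-- names for few reals are supported below some rank -/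
theorem exists_rank {ι : Type} {c : Cardinal.{0}} (hι : #ι ≤ c) (hc : ℵ₀ ≤ c)
    (hW : ∀ (ι : Type), #ι ≤ c → ∀ f : ι → W, ∃ β, ∀ i, f i < β)
    (x : ι → NmI K L W Λ) : ∃ β : W, ∀ i, Supp {j | rkI j < (β : WithBot W)} (x i) := by
  obtain ⟨w0, -⟩ := hW PEmpty (by simp) (fun i => i.elim)
  let g : ι × ℕ × ℕ → WithBot W := fun t =>
    match x t.1 t.2.1 t.2.2 with
    | none => ⊥
    | some u => u.1.supp.sup rkI
  have hcard : #(ι × ℕ × ℕ) ≤ c := by
    simp only [mk_prod, lift_id, mk_nat]
    calc #ι * (ℵ₀ * ℵ₀) ≤ c * (c * c) := mul_le_mul' hι (mul_le_mul' hc hc)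
      _ = c := by rw [mul_eq_self hc, mul_eq_self hc]
  obtain ⟨β, hβ⟩ := hW _ hcard fun t => (g t).unbotD w0
  refine ⟨β, fun i n m u v hu j hj => ?_⟩
  by_contra hne
  apply hj
  have h1 : rkI j ≤ g (i, n, m) := by
    have h2 : g (i, n, m) = u.supp.sup rkI := by
      simp only [g, hu]
    rw [h2]
    exact Finset.le_sup (Cond.mem_supp.2 hne)
  have h3 : g (i, n, m) ≤ ((g (i, n, m)).unbotD w0 : W) := WithBot.le_coe_unbotD _ _
  exact lt_of_le_of_lt (h1.trans h3) (WithBot.coe_lt_coe.2 (hβ (i, n, m)))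

/-- the index set of the coordinates as a sum -/
def ixEmb : Ix K L W Λ → K ⊕ (L × W × Λ) ⊕ W ⊕ (W × Λ) ⊕ (W × Λ)
  | .ck z => Sum.inl z
  | .cw ξ β a => Sum.inr (Sum.inl (ξ, β, a))
  | .cx β => Sum.inr (Sum.inr (Sum.inl β))
  | .dm β a => Sum.inr (Sum.inr (Sum.inr (Sum.inl (β, a))))
  | .cp β a => Sum.inr (Sum.inr (Sum.inr (Sum.inr (β, a))))

omit [LinearOrder W] [WellFoundedLT W] in
theorem ixEmb_inj : Function.Injective (ixEmb (K := K) (L := L) (W := W) (Λ := Λ)) := by
  intro x y h
  cases x <;> cases y <;> simp [ixEmb] at h <;> simp [h]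

omit [LinearOrder W] [WellFoundedLT W] in
theorem mk_Ix (hΛ : ℵ₀ ≤ #Λ) (hK : #K ≤ #Λ) (hL : #L ≤ #Λ) (hW : #W ≤ #Λ) :
    #(Ix K L W Λ) ≤ #Λ := by
  refine (Cardinal.mk_le_of_injective ixEmb_inj).trans ?_
  simp only [Cardinal.mk_sum, Cardinal.mk_prod, Cardinal.lift_id]
  have h1 : #W * #Λ ≤ #Λ := (mul_le_mul' hW le_rfl).trans (mul_eq_self hΛ).le
  have h2 : #L * (#W * #Λ) ≤ #Λ := (mul_le_mul' hL h1).trans (mul_eq_self hΛ).le
  have h3 : #W * #Λ + #W * #Λ ≤ #Λ := (add_le_add h1 h1).trans (add_eq_self hΛ).le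
  have h4 : #W + (#W * #Λ + #W * #Λ) ≤ #Λ := (add_le_add hW h3).trans (add_eq_self hΛ).le
  have h5 : #L * (#W * #Λ) + (#W + (#W * #Λ + #W * #Λ)) ≤ #Λ :=
    (add_le_add h2 h4).trans (add_eq_self hΛ).le
  exact (add_le_add hK h5).trans (add_eq_self hΛ).le

theorem mk_NmI (hΛ : ℵ₀ ≤ #Λ) (hΛ2 : #Λ ^ ℵ₀ = #Λ) (hK : #K ≤ #Λ) (hL : #L ≤ #Λ)
    (hW : #W ≤ #Λ) : #(NmI K L W Λ) ≤ #Λ := by
  refine mk_Nm hΛ hΛ2 ?_ (mk_Ix hΛ hK hL hW)
  rw [mk_sum, lift_id, lift_id]
  exact (add_le_add hK hL).trans (add_eq_self hΛ).le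

end Pool.Agent.R593.Sn
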