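import Pool.Agent.R593.Sn.Merge
import Pool.Agent.Helper669.Forcing

/-! # The stem at a coordinate can be made long; names can be replaced by raw names -/

set_option autoImplicit false
set_option linter.unusedSectionVars false

namespace Pool.Agent.R593.Sn

open Classical Pool.Agent.Helper669.Forcing

variable {M I W : Type} {rs : I → Prop} [LinearOrder W] [WellFoundedLT W]

/-- the conditions, with the order given by the parameters -/
def PP (_Γ : Par M W rs) : Type := Cond M rs

/-- an element of `PP Γ` as a condition -/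
abbrev PP.toC {Γ : Par M W rs} (r : PP Γ) : Cond M rs := r

noncomputable instance {Γ : Par M W rs} : Preorder (PP Γ) where
  le q p := le Γ Set.univ q p
  le_refl p := le_refl' Set.univ p
  le_trans _ _ _ h1 h2 := le_trans' low_univ h1 h2

theorem PP.le_def {Γ : Par M W rs} {q p : PP Γ} : q ≤ p ↔ le Γ Set.univ q p := Iff.rfl

/-- the entries which can be appended at one coordinate -/
theorem exists_entries (Γ : Par M W rs) (j : I) (N : ℕ) (p : Cond M rs) :
    ∃ t, le Γ (below Γ (Γ.rk j)) t p ∧ ∃ E : ℕ → Finset (ℕ × ℕ), (∀ i, Fnl (E i)) ∧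
      ∀ k ∈ (p j).pr, ∀ x, Γ.req j k = some x → ∀ i, (p j).stem.length ≤ i → i < N →
        ∀ t', le Γ (below Γ (Γ.rk j)) t' t →
          Hit (le Γ (below Γ (Γ.rk j))) (Γ.B j) t' x i (E i) := by
  have hlow : Low Γ (below Γ (Γ.rk j)) := low_below _
  by_cases hrs : rs j
  · have hB : Γ.B j = some (Γ.bnd j) := if_pos hrs
    obtain ⟨q1, hq1, φ, hφ⟩ := Val.decide_block (Γ := Γ) hlow (Γ.bnd j) N p
    obtain ⟨q', hq', ξ, hξ⟩ := Val.decideU (Γ := Γ) hlow (p j).pr (Γ.req j) (lam φ N) q1
    obtain ⟨Z3, hZ3, hc3, E, hE1, hE2⟩ := merge_entries φ ξ (p j).stem.length 0 1 le_rfl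
      ({()} : Finset Unit) (fun _ => (p j).pr) (fun _ _ => (p.legit hrs).1)
      (Or.inr ⟨by simp, fun _ _ _ _ => rfl⟩)
    obtain ⟨a0, ha0⟩ : Z3.Nonempty := by
      rw [← Finset.card_pos]; omega
    refine ⟨q', le_trans' hlow hq' hq1, E, hE1, ?_⟩
    intro k hk x hx i hi hi' t ht
    rw [hB]
    intro φ' ξ' hφ' hξ' hlt
    have hmon : lam φ (i + 1) ≤ lam φ N := (lam_strictMono φ).monotone (by omega)
    have hφφ : ∀ n < lam φ (i + 1), φ n = φ' n := by
      by_contra hcon
      push Not at hcon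
      obtain ⟨n0, hn0, hmin⟩ : ∃ n0, (n0 < lam φ (i + 1) ∧ φ n0 ≠ φ' n0) ∧
          ∀ n < n0, ¬ (n < lam φ (i + 1) ∧ φ n ≠ φ' n) :=
        ⟨Nat.find hcon, Nat.find_spec hcon, fun n hn => Nat.find_min hcon hn⟩
      have h10 : n0 < lam φ' (i + 1) := by
        by_contra hge
        push Not at hge
        have h11 : lam φ' (i + 1) = lam φ (i + 1) := lam_congr (i + 1) fun n hn => by
          by_contra hne
          exact hmin n (by omega) ⟨by omega, fun h => hne h.symm⟩
        omega
      exact hn0.2 (((hφ n0 (by omega)).mono hlow (le_trans' hlow ht hq')).unique (hφ' n0 h10))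
    have hlam1 : lam φ (i + 1) = lam φ' (i + 1) := lam_congr _ hφφ
    have hlam : lam φ i = lam φ' i := lam_congr _ fun n hn => hφφ n
      (hn.trans (lam_strictMono φ (Nat.lt_succ_self i)))
    have hξξ : ∀ n < lam φ (i + 1), ξ k n = ξ' n := fun n hn =>
      ((hξ k hk x hx n (by omega)).mono hlow ht).unique (hξ' n (by omega))
    obtain ⟨z, hz1, hz2, hz3, hz4⟩ := hE2 a0 ha0 k hk i hi (fun n hn => by
        rw [hξξ n hn, hφφ n hn]
        exact hlt n (by omega))
    exact ⟨z, hz1, by omega, by omega, by rw [← hξξ _ hz3]; exact hz4⟩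
  · have hB : Γ.B j = none := if_neg hrs
    obtain ⟨q', hq', ξ, hξ⟩ := Val.decideU (Γ := Γ) hlow (p j).pr (Γ.req j) N p
    refine ⟨q', hq', fun i => {(0, (p j).pr.sup fun k => ξ k i)}, ?_, ?_⟩
    · intro i z hz z' hz' _
      rw [Finset.mem_singleton] at hz hz'
      rw [hz, hz']
    · intro k hk x hx i hi hi' t ht
      rw [hB]
      intro n hn
      refine ⟨_, Finset.mem_singleton_self _, ?_⟩
      have h1 := ((hξ k hk x hx i hi').mono hlow ht).unique hn
      rw [← h1]
      exact Finset.le_sup (f := fun k => ξ k i) hk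

theorem ext_long (Γ : Par M W rs) (j : I) (N : ℕ) (p : Cond M rs) :
    ∃ p', le Γ Set.univ p' p ∧ N ≤ (p' j).stem.length ∧ (p' j).pr = (p j).pr ∧
      ∀ i, ¬ Γ.rk i < Γ.rk j → i ≠ j → p' i = p i := by
  obtain ⟨S, hSdef⟩ : ∃ S : Set I, S = below Γ (Γ.rk j) := ⟨_, rfl⟩
  have hS : Low Γ S := hSdef ▸ low_below _
  have hjS : j ∉ S := fun h => by
    rw [hSdef] at h
    exact lt_irrefl _ h
  obtain ⟨t, htp, E, hE1, hE2⟩ := exists_entries Γ j N p
  rw [← hSdef] at htp hE2
  set len := (p j).stem.length with hlen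
  let st : List (Finset (ℕ × ℕ)) := (p j).stem ++ (List.range (N - len)).map fun i => E (len + i)
  have hstlen : st.length = len + (N - len) := by
    simp only [st, List.length_append, List.length_map, List.length_range, hlen]
  have hleg : rs j → Legit (⟨st, (p j).pr⟩ : CV M) := by
    intro hj
    have hl := p.legit hj
    refine ⟨?_, ?_⟩
    · show (p j).pr.card ≤ st.length
      have := hl.1
      omega
    · exact fnl_getD_append hl.2 fun i => hE1 _
  let p1 : Cond M rs := mix S t p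
  let p' : Cond M rs := upd p1 j ⟨st, (p j).pr⟩ hleg
  have hp'j : p' j = ⟨st, (p j).pr⟩ := upd_same p1 j _ hleg
  have hp'S : ∀ i ∈ S, p' i = t i := by
    intro i hi
    have hne : i ≠ j := fun h => hjS (h ▸ hi)
    rw [upd_of_ne p1 _ hleg hne]
    exact mix_mem t p hi
  have hp'o : ∀ i, i ∉ S → i ≠ j → p' i = p i := by
    intro i hi hne
    rw [upd_of_ne p1 _ hleg hne]
    exact mix_notMem t p hi
  refine ⟨p', ?_, ?_, ?_, ?_⟩
  · intro i _
    by_cases hi : i ∈ S
    · exact ext_congr i (fun l hl => (hp'S l (hS i hi l hl)).symm) (hp'S i hi).symm rfl (htp i hi)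
    · by_cases hij : i = j
      · subst hij
        rw [ext_iff, hp'j, ← hSdef]
        refine ⟨List.prefix_append _ _, Finset.Subset.refl _, ?_⟩
        intro k hk x hx m hm hm' t' ht'
        have htt : le Γ S t' t := le_trans' hS ht'
          (le_congr hS (fun l hl => (hp'S l hl).symm) (fun _ _ => rfl) (le_refl' S t))
        have hm1 : m < st.length := hm'
        have hm2 : len ≤ m := hm
        have hmN : m < N := by omega
        show Hit _ _ t' x m (st.getD m ∅)
        have h3 : st.getD m ∅ = E m := by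
          show ((p i).stem ++ (List.range (N - len)).map fun i => E (len + i)).getD m ∅ = _
          rw [getD_append_map _ hm2 (by omega)]
          congr 1
          omega
        rw [h3]
        exact hE2 k hk x hx m hm2 hmN t' htt
      · exact ext_of_eq (hp'o i hi hij)
  · rw [hp'j]
    show N ≤ st.length
    omega
  · rw [hp'j]
  · intro i hi hij
    exact hp'o i (by rw [hSdef]; exact hi) hij

/-- the countable chain condition -/
def CCC (Γ : Par M W rs) : Prop :=
  ∀ A : Set (Cond M rs), ¬ A.Countable → ∃ p ∈ A, ∃ q ∈ A, p ≠ q ∧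
    ∃ r, le Γ Set.univ r p ∧ le Γ Set.univ r q

theorem exists_predense {Γ : Par M W rs} (hccc : CCC Γ) (φ : Set (Cond M rs)) :
    ∃ g : ℕ → Option (Cond M rs), (∀ m u, g m = some u → u ∈ φ) ∧
      ∀ p ∈ φ, ∃ m a, g m = some a ∧ ∃ r, le Γ Set.univ r p ∧ le Γ Set.univ r a := by
  have : ∃ A, Maximal (fun A : Set (Cond M rs) => A ⊆ φ ∧
      ∀ p ∈ A, ∀ q ∈ A, p ≠ q → ¬ ∃ r, le Γ Set.univ r p ∧ le Γ Set.univ r q) A := by
    apply zorn_subset {A : Set (Cond M rs) | A ⊆ φ ∧
      ∀ p ∈ A, ∀ q ∈ A, p ≠ q → ¬ ∃ r, le Γ Set.univ r p ∧ le Γ Set.univ r q}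
    intro c hc hchain
    refine ⟨⋃₀ c, ⟨Set.sUnion_subset fun A hA => (hc hA).1, ?_⟩,
      fun s hs => Set.subset_sUnion_of_mem hs⟩
    rintro p ⟨A, hA, hpA⟩ q ⟨B, hB, hqB⟩ hne
    rcases hchain.total hA hB with h | h
    · exact (hc hB).2 p (h hpA) q hqB hne
    · exact (hc hA).2 p hpA q (h hqB) hne
  obtain ⟨A, ⟨h1, h2⟩, hmax⟩ := this
  have hcount : A.Countable := by
    by_contra hcon
    obtain ⟨p, hp, q, hq, hne, h⟩ := hccc A hcon
    exact h2 p hp q hq hne h
  have hdense : ∀ p ∈ φ, ∃ a ∈ A, ∃ r, le Γ Set.univ r p ∧ le Γ Set.univ r a := by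
    intro p hp
    by_contra hcon
    push Not at hcon
    have hpA : p ∉ A := fun h => hcon p h p (le_refl' Set.univ p) (le_refl' Set.univ p)
    apply hpA
    refine hmax (y := insert p A) ⟨Set.insert_subset hp h1, ?_⟩ (Set.subset_insert p A)
      (Set.mem_insert p A)
    rintro x (rfl | hx) y (rfl | hy) hne
    · exact absurd rfl hne
    · rintro ⟨r, hr1, hr2⟩
      exact hcon y hy r hr1 hr2
    · rintro ⟨r, hr1, hr2⟩
      exact hcon x hx r hr2 hr1
    · exact h2 x hx y hy hne
  rcases A.eq_empty_or_nonempty with h | h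
  · refine ⟨fun _ => none, fun m u hu => by simp at hu, fun p hp => ?_⟩
    obtain ⟨a, ha, -⟩ := hdense p hp
    rw [h] at ha
    exact absurd ha (Set.notMem_empty a)
  · obtain ⟨g, hg⟩ := hcount.exists_eq_range h
    refine ⟨fun m => some (g m), ?_, fun p hp => ?_⟩
    · intro m u hu
      have : g m = u := Option.some_injective _ hu
      exact h1 (by rw [hg, ← this]; exact Set.mem_range_self m)
    · obtain ⟨a, ha, hr⟩ := hdense p hp
      rw [hg] at ha
      obtain ⟨m, rfl⟩ := ha
      exact ⟨m, g m, rfl, hr⟩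

/-- names for functions can be replaced by raw names -/
theorem rawF (Γ : Par M W rs) (hccc : CCC Γ) (x : ℕ → ℕ → Set (PP Γ)) (p : PP Γ)
    (hp : p ∈ IsFun x) :
    ∃ X : Nm M rs, ∀ q : PP Γ, q ≤ p → ∀ n v, Val (le Γ Set.univ) q X n v → q ∈ meets (x n v) := by
  let φ : ℕ → Set (Cond M rs) := fun n =>
    {q | le Γ Set.univ q p.toC ∧ ∃ v, (q : PP Γ) ∈ meets (x n v)}
  choose g hg1 hg2 using fun n => exists_predense hccc (φ n)
  let val : ℕ → Cond M rs → ℕ := fun n u =>
    if h : ∃ v, (u : PP Γ) ∈ meets (x n v) then Classical.choose h else 0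
  have hval : ∀ n (u : Cond M rs), (∃ v, (u : PP Γ) ∈ meets (x n v)) →
      (u : PP Γ) ∈ meets (x n (val n u)) := by
    intro n u h
    simp only [val, dif_pos h]
    exact Classical.choose_spec h
  refine ⟨fun n m => (g n m).map fun u => (u, val n u), ?_⟩
  intro q hq n v hv
  rcases hv with ⟨m, u, h1, h2, _⟩ | ⟨_, h2⟩
  · obtain ⟨u', hu', he⟩ := Option.map_eq_some_iff.1 h1
    have h3 : u' = u := (Prod.mk.inj he).1
    have h4 : val n u' = v := (Prod.mk.inj he).2
    rw [h3] at hu' h4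
    have h5 : u ∈ φ n := hg1 n m u hu'
    have h6 := hval n u h5.2
    rw [h4] at h6
    exact down_meets (P := PP Γ) _ u h6 q h2
  · exfalso
    obtain ⟨r, hr, v', hv'⟩ := IsFun.total (down_IsFun x p hp q hq) n
    have h3 : r.toC ∈ φ n := ⟨(hr.trans hq : r ≤ p), v', hv'⟩
    obtain ⟨m, a, hm, s, hs, hs'⟩ := hg2 n r.toC h3
    refine h2 m a (val n a) ?_ ⟨s, ?_, hs'⟩
    · show (g n m).map _ = _
      rw [hm]
      rfl
    · exact le_trans' low_univ hs hr

end Pool.Agent.R593.Sn
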