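import Pool.Agent.R593.Sn.Ext
import Pool.Agent.TH777.Y.Delta

/-!
# Properties of the families of the Cohen reals
-/

set_option autoImplicit false
set_option linter.unusedSectionVars false

namespace Pool.Agent.R593.Sn

open Classical Cardinal Filter Pool.Agent.Helper669.Forcing
open Pool.Agent.TH777.Y (delta_system fiber_card lt_card_diff)

variable {M I W : Type} {rs : I → Prop} [LinearOrder W] [WellFoundedLT W]
  {Γ : Par M W rs}

theorem mk_finset_lt {X : Type} {θ : Cardinal.{0}} (hθ : ℵ₀ < θ) (hX : #X < θ) :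
    #(Finset X) < θ := by
  rcases finite_or_infinite X with h | h
  · exact (lt_aleph0_of_finite _).trans hθ
  · rw [mk_finset_of_infinite]
    exact hX

/-- thinning out a large family of conditions -/
theorem thin {θ : Cardinal.{0}} (hθ : θ.IsRegular) (hθ0 : ℵ₀ < θ) {α : Type} (A : Set α)
    (hA : θ ≤ #A) (p : α → Cond M rs) (l : α → I) (hinj : Set.InjOn l A) :
    ∃ (A' : Set α) (R : Finset I), A' ⊆ A ∧ A'.Infinite ∧ (∀ a ∈ A', l a ∉ R) ∧
      (∀ a ∈ A', ∀ b ∈ A', a ≠ b → ∀ i ∈ insert (l a) (p a).supp, i ∈ insert (l b) (p b).supp →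
        i ∈ R) ∧
      (∀ j ∈ R, ∀ a ∈ A', ∀ b ∈ A', (p a j).stem = (p b j).stem) ∧
      (∀ a ∈ A', ∀ b ∈ A', (p a (l a)).stem.length = (p b (l b)).stem.length) ∧
      (∀ j ∈ R, #{k : M | Γ.req j k ≠ none} < θ → ∀ a ∈ A', ∀ a' ∈ A', ∀ k,
        Γ.req j k ≠ none → k ∈ (p a j).pr → k ∈ (p a' j).pr) := by
  obtain ⟨A1, R, hA1A, hA1, -, hd⟩ := delta_system hθ hθ0
    (fun a => insert (l a) (p a).supp) A hA
  have hfinR : {a | a ∈ A1 ∧ l a ∈ R}.Finite := by
    refine Set.Finite.of_finite_image (f := l) ?_ ?_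
    · refine (Finset.finite_toSet R).subset ?_
      rintro _ ⟨a, ha, rfl⟩
      exact ha.2
    · exact hinj.mono fun a ha => hA1A ha.1
  have hA2 : θ ≤ #↥(A1 \ {a | a ∈ A1 ∧ l a ∈ R}) :=
    lt_card_diff hθ hA1 (lt_of_lt_of_le (lt_aleph0_iff_set_finite.2 hfinR) hθ.aleph0_le)
  obtain ⟨⟨st, N0⟩, hA3⟩ := fiber_card (β := (R → List (Finset (ℕ × ℕ))) × ℕ) hθ hA2
    (lt_of_le_of_lt mk_le_aleph0 hθ0)
    (fun a => ((fun r : R => (p a r.1).stem), (p a (l a)).stem.length))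
  -- the promises at the coordinates with few requirements
  let Y : Set (I × M) := {z | z.1 ∈ R ∧ #{k : M | Γ.req z.1 k ≠ none} < θ ∧ Γ.req z.1 z.2 ≠ none}
  have hY : #Y < θ := by
    have h1 : Y ⊆ ⋃ j ∈ (↑(R.filter fun j => #{k : M | Γ.req j k ≠ none} < θ) : Set I),
        (fun k => (j, k)) '' {k : M | Γ.req j k ≠ none} := by
      rintro ⟨j, k⟩ ⟨h1, h2, h3⟩
      simp only [Set.mem_iUnion]
      exact ⟨j, Finset.mem_coe.2 (Finset.mem_filter.2 ⟨h1, h2⟩), k, h3, rfl⟩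
    refine lt_of_le_of_lt (mk_le_mk_of_subset h1) ?_
    rw [card_biUnion_lt_iff_forall_of_isRegular hθ]
    · intro j hj
      exact lt_of_le_of_lt mk_image_le (Finset.mem_filter.1 (Finset.mem_coe.1 hj)).2
    · exact lt_of_lt_of_le (lt_aleph0_of_finite _) hθ.aleph0_le
  let D : α → Finset (I × M) := fun a => R.biUnion fun j => (p a j).pr.image fun k => (j, k)
  have hD : ∀ a j k, (j, k) ∈ D a ↔ j ∈ R ∧ k ∈ (p a j).pr := by
    intro a j k
    simp only [D, Finset.mem_biUnion, Finset.mem_image, Prod.mk.injEq]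
    constructor
    · rintro ⟨j', hj', k', hk', rfl, rfl⟩
      exact ⟨hj', hk'⟩
    · rintro ⟨hj, hk⟩
      exact ⟨j, hj, k, hk, rfl, rfl⟩
  obtain ⟨pr0, hA4⟩ := fiber_card (β := Finset Y) hθ hA3 (mk_finset_lt hθ0 hY)
    (fun a => Finset.subtype (fun z => z ∈ Y) (D a))
  obtain ⟨A4, hA4def⟩ : ∃ A4 : Set α, A4 = {a | a ∈ {a | a ∈ A1 \ {a | a ∈ A1 ∧ l a ∈ R} ∧
      ((fun r : R => (p a r.1).stem), (p a (l a)).stem.length) = (st, N0)} ∧
      Finset.subtype (fun z => z ∈ Y) (D a) = pr0} := ⟨_, rfl⟩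
  rw [← hA4def] at hA4
  have hA4' : ∀ a ∈ A4, a ∈ A1 ∧ l a ∉ R ∧ (∀ r ∈ R, ∀ b ∈ A4, (p a r).stem = (p b r).stem) ∧
      (p a (l a)).stem.length = N0 ∧
      ∀ b ∈ A4, ∀ z ∈ Y, z.2 ∈ (p a z.1).pr → z.2 ∈ (p b z.1).pr := by
    intro a ha
    rw [hA4def] at ha
    obtain ⟨⟨⟨h1, h2⟩, h3⟩, h6⟩ := ha
    have h4 := (Prod.mk.inj h3).1
    refine ⟨h1, fun h => h2 ⟨h1, h⟩, fun r hr b hb => ?_, (Prod.mk.inj h3).2, fun b hb z hz hz' => ?_⟩
    · rw [hA4def] at hb
      obtain ⟨⟨_, h3'⟩, _⟩ := hb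
      have h5 := (Prod.mk.inj h3').1
      exact (congrFun h4 ⟨r, hr⟩).trans (congrFun h5 ⟨r, hr⟩).symm
    · rw [hA4def] at hb
      have h7 : Finset.subtype (fun z => z ∈ Y) (D a) = Finset.subtype (fun z => z ∈ Y) (D b) :=
        h6.trans hb.2.symm
      have h8 : (⟨z, hz⟩ : Y) ∈ Finset.subtype (fun z => z ∈ Y) (D a) := by
        rw [Finset.mem_subtype]
        exact (hD a z.1 z.2).2 ⟨hz.1, hz'⟩
      rw [h7, Finset.mem_subtype] at h8
      exact ((hD b z.1 z.2).1 h8).2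
  have hinf : A4.Infinite := by
    rw [Set.infinite_coe_iff.symm, infinite_iff]
    exact hθ.aleph0_le.trans hA4
  refine ⟨A4, R, fun a ha => hA1A (hA4' a ha).1, hinf, fun a ha => (hA4' a ha).2.1,
    fun a ha b hb hab i hi hi' => hd a (hA4' a ha).1 b (hA4' b hb).1 hab i hi hi',
    fun j hj a ha b hb => (hA4' a ha).2.2.1 j hj b hb,
    fun a ha b hb => (hA4' a ha).2.2.2.1.trans (hA4' b hb).2.2.2.1.symm,
    fun j hj hsm a ha a' ha' k hk hka => (hA4' a ha).2.2.2.2 a' ha' (j, k) ⟨hj, hsm, hk⟩ hka⟩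

/-- extending the conditions `p a` at the coordinates `l a`, which have no requirements -/
theorem exists_ext_at {α : Type} (Z : Finset α) (p : α → Cond M rs) (l : α → I)
    (hrs : ∀ a ∈ Z, ¬ rs (l a)) (hreq : ∀ a ∈ Z, ∀ k, Γ.req (l a) k = none)
    (σ : α → List (Finset (ℕ × ℕ))) :
    ∃ p' : α → Cond M rs, ∀ a ∈ Z, (p' a (l a)).stem = (p a (l a)).stem ++ σ a ∧
      (p' a (l a)).pr = (p a (l a)).pr ∧ (∀ i, i ≠ l a → p' a i = p a i) ∧
      le Γ Set.univ (p' a) (p a) := by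
  have hex : ∀ a, ∃ p' : Cond M rs, a ∈ Z → ((p' (l a)).stem = (p a (l a)).stem ++ σ a ∧
      (p' (l a)).pr = (p a (l a)).pr ∧ (∀ i, i ≠ l a → p' i = p a i) ∧
      le Γ Set.univ p' (p a)) := by
    intro a
    by_cases ha : a ∈ Z
    · let v : CV M := ⟨(p a (l a)).stem ++ σ a, (p a (l a)).pr⟩
      have hn : rs (l a) → Legit v := fun hb => absurd hb (hrs a ha)
      refine ⟨upd (p a) (l a) v hn, fun _ => ?_⟩
      have h1 : upd (p a) (l a) v hn (l a) = v := upd_same _ _ _ _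
      refine ⟨by rw [h1], by rw [h1], fun i hi => upd_of_ne _ _ _ hi, fun i _ => ?_⟩
      by_cases hil : i = l a
      · subst hil
        refine ext_noreq (hreq a ha) ?_ ?_
        · rw [h1]
          exact List.prefix_append _ _
        · rw [h1]
      · exact ext_of_eq (upd_of_ne _ _ _ hil)
    · exact ⟨p a, fun h => absurd h ha⟩
  choose p' hp' using hex
  exact ⟨p', hp'⟩

/-- The Luzin property: from `θ` many conditions `p a` and Cohen coordinates `l a` one gets, for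
arbitrarily large `n`, more than `n` conditions with a common extension which decides different
values at `n` for the corresponding Cohen reals. -/
def Luz (Γ : Par M W rs) (C : Set I) (θ : Cardinal.{0}) : Prop :=
  ∀ (α : Type) (A : Set α), θ ≤ #A → ∀ (p : α → Cond M rs) (l : α → I),
    (∀ a ∈ A, l a ∈ C) → Set.InjOn l A → ∀ m : ℕ,
      ∃ n, m ≤ n ∧ ∃ (q : Cond M rs) (Z : Finset α), (↑Z : Set α) ⊆ A ∧ n < Z.card ∧
        (∀ a ∈ Z, le Γ Set.univ q (p a)) ∧ (∀ a ∈ Z, n < (q (l a)).stem.length) ∧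
        ∀ a ∈ Z, ∀ b ∈ Z, a ≠ b →
          ((q (l a)).stem.getD n ∅).card ≠ ((q (l b)).stem.getD n ∅).card

theorem iter_mul (n r N : ℕ) : (fun N => N * (n + 1))^[r] N = N * (n + 1) ^ r := by
  induction r generalizing N with
  | zero => simp
  | succ r ih =>
    rw [Function.iterate_succ_apply, ih, pow_succ]
    ring

theorem growth (r : ℕ) : ∀ᶠ n in atTop, (n + 1) ^ r ≤ 2 ^ n := by
  have h := (tendsto_pow_const_div_const_pow_of_one_lt r (r := 2) (by norm_num)).eventually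
    (gt_mem_nhds (show (0:ℝ) < 1 / 2 ^ (r + 1) by positivity))
  filter_upwards [h, eventually_ge_atTop 1] with n hn hn1
  have h2 : (0:ℝ) < 2 ^ n := by positivity
  rw [div_lt_iff₀ h2] at hn
  have h3 : ((n:ℝ) + 1) ^ r ≤ (2 * n) ^ r := by
    apply pow_le_pow_left₀ (by positivity)
    have : (1:ℝ) ≤ n := by exact_mod_cast hn1
    linarith
  have h4 : ((n:ℝ) + 1) ^ r ≤ 2 ^ n := by
    refine h3.trans ?_
    rw [mul_pow]
    have h5 : (2:ℝ) ^ r * (n:ℝ) ^ r ≤ 2 ^ r * (1 / 2 ^ (r + 1) * 2 ^ n) :=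
      mul_le_mul_of_nonneg_left hn.le (by positivity)
    refine h5.trans ?_
    have h6 : (2:ℝ) ^ r * (1 / 2 ^ (r + 1) * 2 ^ n) = 2 ^ n / 2 := by
      field_simp
      ring
    rw [h6]
    linarith
  exact_mod_cast h4

theorem luz {θ : Cardinal.{0}} (hθ : θ.IsRegular) (hθ0 : ℵ₀ < θ) (C : Set I)
    (hC : ∀ j ∈ C, ¬ rs j ∧ ∀ k, Γ.req j k = none) : Luz Γ C θ := by
  intro α A hA p l hl hinj m
  obtain ⟨A4, R, hA4A, hinf, hlR, hd, hstem, hlen, -⟩ := thin (Γ := Γ) hθ hθ0 A hA p l hinj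
  obtain ⟨a1, ha1⟩ := hinf.nonempty
  obtain ⟨N0, hN0⟩ : ∃ N0, N0 = (p a1 (l a1)).stem.length := ⟨_, rfl⟩
  obtain ⟨n, ⟨hgr, hnm⟩, hnN⟩ := (((growth (R.card + 1)).and (eventually_ge_atTop m)).and
    (eventually_ge_atTop N0)).exists
  obtain ⟨Z, hZA, hZc⟩ := hinf.exists_subset_card_eq ((n + 1) ^ (R.card + 1))
  have hlen' : ∀ a ∈ Z, (p a (l a)).stem.length = N0 := fun a ha => by
    rw [hlen a (hZA ha) a1 ha1, hN0]
  obtain ⟨num, hnum1, hnum2⟩ := exists_enum Z
  have hZC : ∀ a ∈ Z, l a ∈ C := fun a ha => hl a (hA4A (hZA ha))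
  obtain ⟨p', hp'⟩ := exists_ext_at (Γ := Γ) Z p l (fun a ha => (hC _ (hZC a ha)).1)
    (fun a ha => (hC _ (hZC a ha)).2)
    (fun a => List.replicate (n - N0) ∅ ++ [(Finset.range (num a)).image fun i => (i, 0)])
  have hpR : ∀ j ∈ R, ∀ a ∈ Z, p' a j = p a j := by
    intro j hj a ha
    exact (hp' a ha).2.2.1 j fun h => hlR a (hZA ha) (h ▸ hj)
  have hit : (fun N => N * (n + 1))^[R.card] (n + 1) = (n + 1) ^ (R.card + 1) := by
    rw [iter_mul, pow_succ]
    ring
  obtain ⟨Z', hZ', hc', q, hq⟩ := merge (Γ := Γ) p' (fun N => N * (n + 1))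
    (fun N => Nat.le_mul_of_pos_right _ (Nat.succ_pos n)) (2 ^ n) Z R.card (n + 1) (by omega) R rfl
    (by rw [hit]; exact hgr)
    (fun j hj N hN hNcap Z1 hZ1 hc q => step_top n p' N hN j Z1 q
      (fun a ha b hb => by
        rw [hpR j hj a (hZ1 ha), hpR j hj b (hZ1 hb)]
        exact hstem j hj a (hZA (hZ1 ha)) b (hZA (hZ1 hb)))
      (Or.inl ⟨hc, hNcap⟩))
    Set.univ low_univ Z (Finset.Subset.refl _) (by rw [hit, hZc])
    (by
      intro i _ hiR a ha b hb hab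
      by_contra hcon
      push Not at hcon
      have key : ∀ a ∈ Z, p' a i ≠ CV.top → i ∈ insert (l a) (p a).supp := by
        intro a ha hne
        by_cases hil : i = l a
        · rw [hil]
          exact Finset.mem_insert_self _ _
        · rw [(hp' a ha).2.2.1 i hil] at hne
          exact Finset.mem_insert_of_mem (Cond.mem_supp.2 hne)
      exact hiR (hd a (hZA ha) b (hZA hb) hab i (key a ha hcon.1) (key b hb hcon.2)))
  have hst : ∀ a ∈ Z', n < (q (l a)).stem.length ∧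
      (q (l a)).stem.getD n ∅ = (Finset.range (num a)).image fun i => (i, 0) := by
    intro a ha
    have haZ := hZ' ha
    have h1 := ext_stem (hq a ha (l a) (Set.mem_univ _))
    rw [(hp' a haZ).1] at h1
    have h2 : ((p a (l a)).stem ++ List.replicate (n - N0) ∅).length = n := by
      rw [List.length_append, List.length_replicate, hlen' a haZ]
      omega
    rw [← List.append_assoc] at h1
    have h3 : (((p a (l a)).stem ++ List.replicate (n - N0) ∅) ++
        [(Finset.range (num a)).image fun i => (i, 0)]).length = n + 1 := by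
      rw [List.length_append, h2]
      rfl
    refine ⟨by have := h1.length_le; omega, ?_⟩
    rw [getD_prefix h1 (by omega)]
    rw [List.getD_append_right _ _ _ _ h2.le, h2]
    simp
  refine ⟨n, hnm, q, Z', fun a ha => hA4A (hZA (hZ' ha)), by omega,
    fun a ha => le_trans' low_univ (hq a ha) (hp' a (hZ' ha)).2.2.2, fun a ha => (hst a ha).1, ?_⟩
  intro a ha b hb hab
  have hcard : ∀ a, ((Finset.range (num a)).image fun i => ((i, 0) : ℕ × ℕ)).card = num a := by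
    intro a
    rw [Finset.card_image_of_injective _ (fun i i' h => (Prod.mk.inj h).1), Finset.card_range]
  rw [(hst a ha).2, (hst b hb).2, hcard, hcard]
  exact fun h => hab (hnum2 a (hZ' ha) b (hZ' hb) h)

/-- Finitely many of `θ` many conditions `p a`, arbitrarily extended at the Cohen coordinates
`l a`, have a common extension, if there are few requirements at the restricted coordinates. -/
theorem many {θ : Cardinal.{0}} (hθ : θ.IsRegular) (hθ0 : ℵ₀ < θ)
    (hsm : ∀ j, rs j → #{k : M | Γ.req j k ≠ none} < θ) {α : Type} (A : Set α)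
    (hA : θ ≤ #A) (p : α → Cond M rs) (l : α → I)
    (hC : ∀ a ∈ A, ¬ rs (l a) ∧ ∀ k, Γ.req (l a) k = none) (hinj : Set.InjOn l A) (N : ℕ) :
    ∃ Z : Finset α, (↑Z : Set α) ⊆ A ∧ Z.card = N ∧ ∀ σ : α → List (Finset (ℕ × ℕ)),
      ∃ q : Cond M rs, ∀ a ∈ Z, le Γ Set.univ q (p a) ∧
        (p a (l a)).stem ++ σ a <+: (q (l a)).stem := by
  obtain ⟨A4, R, hA4A, hinf, hlR, hd, hstem, -, hprom⟩ := thin (Γ := Γ) hθ hθ0 A hA p l hinj
  obtain ⟨Z, hZA, hZc⟩ := hinf.exists_subset_card_eq N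
  refine ⟨Z, fun a ha => hA4A (hZA ha), hZc, fun σ => ?_⟩
  rcases Z.eq_empty_or_nonempty with hZe | hZne
  · exact ⟨Cond.one, fun a ha => by rw [hZe] at ha; exact absurd ha (Finset.notMem_empty a)⟩
  have hN1 : 1 ≤ N := by
    rw [← hZc]
    exact Finset.card_pos.2 hZne
  obtain ⟨p', hp'⟩ := exists_ext_at (Γ := Γ) Z p l (fun a ha => (hC _ (hA4A (hZA ha))).1)
    (fun a ha => (hC _ (hA4A (hZA ha))).2) σ
  have hpR : ∀ j ∈ R, ∀ a ∈ Z, p' a j = p a j := by
    intro j hj a ha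
    exact (hp' a ha).2.2.1 j fun h => hlR a (hZA ha) (h ▸ hj)
  have hit : ∀ r N, (fun N : ℕ => N)^[r] N = N := by
    intro r N
    induction r with
    | zero => rfl
    | succ r ih => rw [Function.iterate_succ_apply]; exact ih
  obtain ⟨Z', hZ', hc', q, hq⟩ := merge (Γ := Γ) p' (fun N => N) (fun N => le_rfl) N Z R.card N
    hN1 R rfl (by rw [hit])
    (fun j hj N hN hNcap Z1 hZ1 hc q => step_top 0 p' N hN j Z1 q
      (fun a ha b hb => by
        rw [hpR j hj a (hZ1 ha), hpR j hj b (hZ1 hb)]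
        exact hstem j hj a (hZA (hZ1 ha)) b (hZA (hZ1 hb)))
      (Or.inr ⟨hc, fun hrs a ha a' ha' k hk hka => by
        rw [hpR j hj a (hZ1 ha)] at hka
        rw [hpR j hj a' (hZ1 ha')]
        exact hprom j hj (hsm j hrs) a (hZA (hZ1 ha)) a' (hZA (hZ1 ha')) k hk hka⟩))
    Set.univ low_univ Z (Finset.Subset.refl _) (by rw [hit, hZc])
    (by
      intro i _ hiR a ha b hb hab
      by_contra hcon
      push Not at hcon
      have key : ∀ a ∈ Z, p' a i ≠ CV.top → i ∈ insert (l a) (p a).supp := by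
        intro a ha hne
        by_cases hil : i = l a
        · rw [hil]
          exact Finset.mem_insert_self _ _
        · rw [(hp' a ha).2.2.1 i hil] at hne
          exact Finset.mem_insert_of_mem (Cond.mem_supp.2 hne)
      exact hiR (hd a (hZA ha) b (hZA hb) hab i (key a ha hcon.1) (key b hb hcon.2)))
  have hZZ : Z' = Z := Finset.eq_of_subset_of_card_le hZ' (by omega)
  subst hZZ
  refine ⟨q, fun a ha => ⟨le_trans' low_univ (hq a ha) (hp' a ha).2.2.2, ?_⟩⟩
  have h1 := ext_stem (hq a ha (l a) (Set.mem_univ _))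
  rwa [(hp' a ha).1] at h1

end Pool.Agent.R593.Sn
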