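import Pool.Agent.R593.Sn.Basic

/-!
# Merging of many conditions

Conditions whose supports form a delta-system with root `R`, with equal stems on the root, are
merged. At a restricted root coordinate a part of the conditions may be lost.
-/

set_option autoImplicit false
set_option linter.unusedSectionVars false

namespace Pool.Agent.R593.Sn

open Classical

variable {M I W : Type} {rs : I → Prop} [LinearOrder W] [WellFoundedLT W]
  {Γ : Par M W rs}

theorem getD_append_map {s : List (Finset (ℕ × ℕ))} {N i : ℕ} (f : ℕ → Finset (ℕ × ℕ))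
    (h1 : s.length ≤ i) (h2 : i < s.length + N) :
    (s ++ (List.range N).map f).getD i ∅ = f (i - s.length) := by
  rw [List.getD_append_right _ _ _ _ h1, List.getD_eq_getElem _ _ (by simp; omega)]
  simp

theorem fnl_getD_append {s : List (Finset (ℕ × ℕ))} {N : ℕ} {f : ℕ → Finset (ℕ × ℕ)}
    (hs : ∀ i, Fnl (s.getD i ∅)) (hf : ∀ i, Fnl (f i)) (i : ℕ) :
    Fnl ((s ++ (List.range N).map f).getD i ∅) := by
  by_cases h1 : i < s.length
  · rw [List.getD_append _ _ _ _ h1]
    exact hs i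
  · by_cases h2 : i < s.length + N
    · rw [getD_append_map f (not_lt.1 h1) h2]
      exact hf _
    · rw [List.getD_eq_default _ _ (by simp; omega)]
      exact fnl_empty

/-- finitely many values can be decided -/
theorem Val.decideF {β : Type} {T : Set I} (hT : Low Γ T) (F : Finset β)
    (X : β → Option (Nm M rs)) (n : β → ℕ) (t : Cond M rs) :
    ∃ t', le Γ T t' t ∧ ∀ b ∈ F, ∀ x, X b = some x →
      ∃ v, Val (le Γ T) t' x (n b) v := by
  induction F using Finset.induction_on with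
  | empty => exact ⟨t, le_refl' T t, fun b h => absurd h (Finset.notMem_empty b)⟩
  | insert b F _ ih =>
    obtain ⟨t1, h1, h2⟩ := ih
    by_cases hb : ∃ x, X b = some x
    · obtain ⟨x, hb⟩ := hb
      obtain ⟨t2, h3, v, hv⟩ := Val.dense (Γ := Γ) hT t1 x (n b)
      refine ⟨t2, le_trans' hT h3 h1, fun b' h x' hx' => ?_⟩
      rcases Finset.mem_insert.1 h with rfl | h
      · rw [hb] at hx'
        have := Option.some_injective _ hx'
        rw [← this]
        exact ⟨v, hv⟩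
      · obtain ⟨w, hw⟩ := h2 b' h x' hx'
        exact ⟨w, hw.mono hT h3⟩
    · refine ⟨t1, h1, fun b' h x' hx' => ?_⟩
      rcases Finset.mem_insert.1 h with rfl | h
      · exact absurd ⟨x', hx'⟩ hb
      · exact h2 b' h x' hx'

/-- the values of finitely many named functions below `U` are decided -/
theorem Val.decideU {T : Set I} (hT : Low Γ T) (F : Finset M) (ρ : M → Option (Nm M rs)) (U : ℕ)
    (t : Cond M rs) : ∃ t', le Γ T t' t ∧ ∃ ξ : M → ℕ → ℕ, ∀ k ∈ F, ∀ x, ρ k = some x →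
      ∀ n < U, Val (le Γ T) t' x n (ξ k n) := by
  obtain ⟨q', hq', hd⟩ := Val.decideF (Γ := Γ) hT (F ×ˢ Finset.range U)
    (fun z : M × ℕ => ρ z.1) (fun z => z.2) t
  have hd' : ∀ k i, ∃ v, k ∈ F → i < U → ∀ x,
      ρ k = some x → Val (le Γ T) q' x i v := by
    intro k i
    by_cases hk : k ∈ F ∧ i < U ∧ ∃ x, ρ k = some x
    · obtain ⟨hk, hi, x, hx⟩ := hk
      obtain ⟨v, hv⟩ := hd (k, i) (Finset.mem_product.2 ⟨hk, Finset.mem_range.2 hi⟩) x hx
      refine ⟨v, fun _ _ x' hx' => ?_⟩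
      rw [hx] at hx'
      rw [← Option.some_injective _ hx']
      exact hv
    · exact ⟨0, fun h4 h5 x hx => absurd ⟨h4, h5, x, hx⟩ hk⟩
  choose ξ hξ using hd'
  exact ⟨q', hq', ξ, fun k hk x hx n hn => hξ k n hk hn x hx⟩

/-- merging at one coordinate -/
theorem step_top {α : Type} (n : ℕ) (p : α → Cond M rs) (N : ℕ)
    (hN : 1 ≤ N) (j : I) (Z : Finset α) (q : Cond M rs)
    (h1 : ∀ a ∈ Z, ∀ b ∈ Z, (p a j).stem = (p b j).stem)
    (h3 : (N * (n + 1) ≤ Z.card ∧ N ≤ 2 ^ n) ∨ (N ≤ Z.card ∧ (rs j → ∀ a ∈ Z, ∀ a' ∈ Z, ∀ k,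
      Γ.req j k ≠ none → k ∈ (p a j).pr → k ∈ (p a' j).pr))) :
    ∃ Z' ⊆ Z, N ≤ Z'.card ∧ ∃ q', le Γ (below Γ (Γ.rk j)) q' q ∧ ∃ V : CV M,
      (rs j → Legit V) ∧ ∀ P : Cond M rs, P j = V →
        le Γ (below Γ (Γ.rk j)) P q' → ∀ a ∈ Z', ext Γ j P (p a) := by
  have hlow : Low Γ (below Γ (Γ.rk j)) := low_below _
  have hNZ : N ≤ Z.card := by
    rcases h3 with ⟨h3, -⟩ | ⟨h3, -⟩
    · exact (Nat.le_mul_of_pos_right _ (Nat.succ_pos n)).trans h3
    · exact h3
  obtain ⟨a1, ha1⟩ : Z.Nonempty := by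
    rw [← Finset.card_pos]
    exact lt_of_lt_of_le hN hNZ
  by_cases hrs : rs j
  swap
  · -- unrestricted
    refine ⟨Z, Finset.Subset.refl _, hNZ, q, le_refl' _ q,
      ⟨(p a1 j).stem, Z.biUnion fun a => (p a j).pr⟩, fun hb => absurd hb hrs,
      fun P hP _ a ha => ?_⟩
    refine ext_same_stem ?_ ?_
    · rw [hP]
      exact h1 a ha a1 ha1
    · rw [hP]
      exact fun k hk => Finset.mem_biUnion.2 ⟨a, ha, hk⟩
  obtain ⟨ℓ, hℓ⟩ : ∃ ℓ, ℓ = (p a1 j).stem.length := ⟨_, rfl⟩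
  have hlen : ∀ a ∈ Z, (p a j).stem.length = ℓ := fun a ha => by rw [h1 a ha a1 ha1, hℓ]
  have hcard : ∀ a ∈ Z, (p a j).pr.card ≤ ℓ := fun a ha => by
    have := ((p a).legit hrs).1
    rwa [hlen a ha] at this
  have hB : Γ.B j = some (Γ.bnd j) := if_pos hrs
  -- decide the bound and the values
  obtain ⟨len, hlendef⟩ : ∃ len, len = N * ℓ := ⟨_, rfl⟩
  obtain ⟨q1, hq1, φ, hφ⟩ := Val.decide_block (Γ := Γ) hlow (Γ.bnd j) (ℓ + len) q
  obtain ⟨q', hq', ξ, hξ⟩ := Val.decideU (Γ := Γ) hlow (Z.biUnion fun a => (p a j).pr) (Γ.req j)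
    (lam φ (ℓ + len)) q1
  -- the entries
  let F : α → Finset M := fun a => (p a j).pr.filter fun k => Γ.req j k ≠ none
  obtain ⟨Z3, hZ3, hc3, E, hE1, hE2⟩ := merge_entries φ ξ ℓ n N hN Z F
    (fun a ha => (Finset.card_filter_le _ _).trans (hcard a ha))
    (by
      rcases h3 with h3 | ⟨h3, h4⟩
      · exact Or.inl h3
      · refine Or.inr ⟨h3, fun a ha a' ha' => ?_⟩
        ext k
        simp only [F, Finset.mem_filter]
        exact ⟨fun h => ⟨h4 hrs a ha a' ha' k h.2 h.1, h.2⟩,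
          fun h => ⟨h4 hrs a' ha' a ha k h.2 h.1, h.2⟩⟩)
  refine ⟨Z3, hZ3, hc3.ge, q', le_trans' hlow hq' hq1, ⟨(p a1 j).stem ++ (List.range len).map
    (fun s => E (ℓ + s)), Z3.biUnion fun a => (p a j).pr⟩, ?_, ?_⟩
  · -- legitimate
    intro _
    refine ⟨?_, ?_⟩
    · show (Z3.biUnion fun a => (p a j).pr).card ≤ _
      rw [List.length_append, List.length_map, List.length_range, ← hℓ]
      have h5 : (Z3.biUnion fun a => (p a j).pr).card ≤ N * ℓ := by
        refine Finset.card_biUnion_le.trans ?_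
        refine (Finset.sum_le_card_nsmul _ _ ℓ fun a ha => hcard a (hZ3 ha)).trans ?_
        rw [hc3, smul_eq_mul]
      omega
    · exact fnl_getD_append ((p a1).legit hrs).2 fun i => hE1 _
  · intro P hP hPq a ha
    have haZ := hZ3 ha
    have hst := h1 a haZ a1 ha1
    rw [ext_iff, hP]
    refine ⟨by rw [hst]; exact List.prefix_append _ _,
      fun k hk => Finset.mem_biUnion.2 ⟨a, ha, hk⟩, ?_⟩
    intro k hk x hx i hi hi' t ht
    rw [hst, ← hℓ] at hi
    simp only at hi' ⊢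
    rw [List.length_append, List.length_map, List.length_range, ← hℓ] at hi'
    rw [getD_append_map _ (by omega) (by omega), ← hℓ]
    have h9 : ℓ + (i - ℓ) = i := by omega
    rw [h9, hB]
    intro φ' ξ' hφ' hξ' hlt
    have hmon : lam φ (i + 1) ≤ lam φ (ℓ + len) := (lam_strictMono φ).monotone (by omega)
    have htq : le Γ (below Γ (Γ.rk j)) t q' := le_trans' hlow ht hPq
    -- the bounds are the same
    have hφφ : ∀ n < lam φ (i + 1), φ n = φ' n := by
      by_contra hcon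
      push Not at hcon
      obtain ⟨n0, hn0, hmin⟩ : ∃ n0, (n0 < lam φ (i + 1) ∧ φ n0 ≠ φ' n0) ∧
          ∀ n < n0, ¬ (n < lam φ (i + 1) ∧ φ n ≠ φ' n) :=
        ⟨Nat.find hcon, Nat.find_spec hcon, fun n hn => Nat.find_min hcon hn⟩
      have h10 : n0 < lam φ' (i + 1) := by
        by_contra hge
        push Not at hge
        have h11 : lam φ' (i + 1) = lam φ (i + 1) := lam_congr (i + 1) fun n hn => by
          by_contra hne
          exact hmin n (by omega) ⟨by omega, fun h => hne h.symm⟩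
        omega
      exact hn0.2 (((hφ n0 (by omega)).mono hlow (le_trans' hlow htq hq')).unique (hφ' n0 h10))
    have hlam1 : lam φ (i + 1) = lam φ' (i + 1) := lam_congr _ hφφ
    have hlam : lam φ i = lam φ' i := lam_congr _ fun n hn => hφφ n
      (hn.trans (lam_strictMono φ (Nat.lt_succ_self i)))
    have hkU : k ∈ Z.biUnion fun a => (p a j).pr := Finset.mem_biUnion.2 ⟨a, haZ, hk⟩
    have hξξ : ∀ n < lam φ (i + 1), ξ k n = ξ' n := fun n hn =>
      ((hξ k hkU x hx n (by omega)).mono hlow htq).unique (hξ' n (by omega))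
    obtain ⟨z, hz1, hz2, hz3, hz4⟩ := hE2 a ha k
      (Finset.mem_filter.2 ⟨hk, by rw [hx]; simp⟩) i hi (fun n hn => by
        rw [hξξ n hn, hφφ n hn]
        exact hlt n (by omega))
    exact ⟨z, hz1, by omega, by omega, by rw [← hξξ _ hz3]; exact hz4⟩

theorem le_iter {g : ℕ → ℕ} (hg : ∀ N, N ≤ g N) (r N : ℕ) : N ≤ g^[r] N := by
  induction r generalizing N with
  | zero => exact le_rfl
  | succ r ih =>
    rw [Function.iterate_succ_apply]
    exact (hg N).trans (ih _)

/-- merging -/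
theorem merge {α : Type} (p : α → Cond M rs) (g : ℕ → ℕ) (hg : ∀ N, N ≤ g N) (cap : ℕ)
    (Z0 : Finset α) (r : ℕ) :
    ∀ (N : ℕ) (_ : 1 ≤ N) (R : Finset I) (_ : R.card = r) (_ : g^[r] N ≤ cap)
      (_ : ∀ j ∈ R, ∀ N, 1 ≤ N → N ≤ cap → ∀ Z ⊆ Z0, g N ≤ Z.card → ∀ q : Cond M rs,
        ∃ Z' ⊆ Z, N ≤ Z'.card ∧ ∃ q', le Γ (below Γ (Γ.rk j)) q' q ∧ ∃ V : CV M,
          (rs j → Legit V) ∧ ∀ P : Cond M rs, P j = V →
            le Γ (below Γ (Γ.rk j)) P q' → ∀ a ∈ Z', ext Γ j P (p a))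
      (T : Set I) (_ : Low Γ T)
      (Z : Finset α) (_ : Z ⊆ Z0) (_ : g^[r] N ≤ Z.card)
      (_ : ∀ i ∈ T, i ∉ R → ∀ a ∈ Z, ∀ b ∈ Z, a ≠ b → p a i = CV.top ∨ p b i = CV.top),
      ∃ Z' ⊆ Z, N ≤ Z'.card ∧ ∃ q : Cond M rs, ∀ a ∈ Z', le Γ T q (p a) := by
  induction r with
  | zero =>
    intro N hN R hR _ _ T hT Z _ hZ h1
    rw [Finset.card_eq_zero] at hR
    subst hR
    let f : I → CV M := fun i =>
      if h : i ∈ T ∧ ∃ a ∈ Z, p a i ≠ CV.top then p h.2.choose i else CV.top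
    have hfin : {i | f i ≠ CV.top}.Finite := by
      refine Set.Finite.subset
        (Set.Finite.biUnion (Finset.finite_toSet Z) fun a _ => (p a).2.1) ?_
      intro i hi
      have hi' : f i ≠ CV.top := hi
      simp only [f] at hi'
      split_ifs at hi' with h
      · simp only [Set.mem_iUnion]
        exact ⟨_, h.2.choose_spec.1, hi'⟩
      · exact absurd rfl hi'
    have hleg : ∀ i, rs i → Legit (f i) := by
      intro i hb
      simp only [f]
      split_ifs with h
      · exact (p _).legit hb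
      · exact legit_top
    refine ⟨Z, Finset.Subset.refl _, hZ, ⟨f, hfin, hleg⟩, fun a ha j hj => ?_⟩
    by_cases htop : p a j = CV.top
    · exact ext_top htop
    have hex : j ∈ T ∧ ∃ a ∈ Z, p a j ≠ CV.top := ⟨hj, a, ha, htop⟩
    apply ext_of_eq
    show f j = p a j
    simp only [f, dif_pos hex]
    by_cases hab : hex.2.choose = a
    · rw [hab]
    · rcases h1 j hj (Finset.notMem_empty _) _ hex.2.choose_spec.1 a ha hab with h | h
      · exact absurd h hex.2.choose_spec.2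
      · exact absurd h htop
  | succ r ih =>
    intro N hN R hR hcap hstep T hT Z hZ0 hZ h1
    rw [Function.iterate_succ_apply] at hZ hcap
    have hEN : 1 ≤ g N := hN.trans (hg N)
    have hNcap : N ≤ cap := (hg N).trans ((le_iter hg r _).trans hcap)
    have hne : R.Nonempty := by
      rw [← Finset.card_pos]; omega
    obtain ⟨j, hjR, hjmax⟩ := Finset.exists_max_image R Γ.rk hne
    have hRe : (R.erase j).card = r := by
      rw [Finset.card_erase_of_mem hjR]; omega
    have hstep' := fun i (hi : i ∈ R.erase j) => hstep i (Finset.mem_of_mem_erase hi)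
    by_cases hjT : j ∈ T
    swap
    · obtain ⟨Z', hZ', hc, q, hq⟩ := ih (g N) hEN (R.erase j) hRe hcap hstep' T hT Z hZ0 hZ
        (fun i hi hi' => h1 i hi fun h => hi' (Finset.mem_erase.2 ⟨fun h' => hjT (h' ▸ hi), h⟩))
      exact ⟨Z', hZ', (hg N).trans hc, q, hq⟩
    -- the lower set below `j`
    obtain ⟨T', hT'def⟩ : ∃ T' : Set I, T' = {i | i ∈ T ∧ Γ.rk i ≤ Γ.rk j ∧ i ≠ j} := ⟨_, rfl⟩
    have hmemT' : ∀ i, i ∈ T' ↔ i ∈ T ∧ Γ.rk i ≤ Γ.rk j ∧ i ≠ j := by
      intro i; rw [hT'def]; rfl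
    have hlowT' : Low Γ T' := by
      intro i hi l hl
      rw [hmemT'] at hi ⊢
      refine ⟨hT i hi.1 l hl, (hl.trans_le hi.2.1).le, ?_⟩
      rintro rfl
      exact absurd (hl.trans_le hi.2.1) (lt_irrefl _)
    have hbT' : below Γ (Γ.rk j) ⊆ T' := by
      intro i hi
      have hi' : Γ.rk i < Γ.rk j := hi
      rw [hmemT']
      refine ⟨hT j hjT i hi', hi'.le, ?_⟩
      rintro rfl
      exact lt_irrefl _ hi'
    obtain ⟨Z1, hZ1, hc1, q1, hq1⟩ := ih (g N) hEN (R.erase j) hRe hcap hstep' T' hlowT' Z hZ0 hZ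
        (fun i hi hi' => h1 i ((hmemT' i).1 hi).1 fun h =>
          hi' (Finset.mem_erase.2 ⟨((hmemT' i).1 hi).2.2, h⟩))
    obtain ⟨Z2, hZ2, hc2, q2, hq2, V, hV, hext⟩ := hstep j hjR N hN hNcap Z1 (hZ1.trans hZ0) hc1 q1
    have hlow : Low Γ (below Γ (Γ.rk j)) := low_below _
    have hZ2Z : Z2 ⊆ Z := hZ2.trans hZ1
    -- the condition
    let f : I → CV M := fun i => if Γ.rk i < Γ.rk j then q2 i else if i = j then V
      else if i ∈ T' then q1 i
      else if h : i ∈ T ∧ ∃ a ∈ Z2, p a i ≠ CV.top then p h.2.choose i else CV.top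
    have hf1 : ∀ i, Γ.rk i < Γ.rk j → f i = q2 i := fun i hi => if_pos hi
    have hf2 : f j = V := by simp [f]
    have hf3 : ∀ i ∈ T', ¬ Γ.rk i < Γ.rk j → f i = q1 i := by
      intro i hi hi'
      simp only [f, if_neg hi', if_neg ((hmemT' i).1 hi).2.2, if_pos hi]
    have hf4 : ∀ i ∉ T', i ≠ j → f i =
        if h : i ∈ T ∧ ∃ a ∈ Z2, p a i ≠ CV.top then p h.2.choose i else CV.top := by
      intro i hi hij
      have : ¬ Γ.rk i < Γ.rk j := fun h => hi (hbT' h)
      simp only [f, if_neg this, if_neg hij, if_neg hi]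
    have hfin : {i | f i ≠ CV.top}.Finite := by
      refine Set.Finite.subset (((q2.2.1.union (Set.finite_singleton j)).union q1.2.1).union
        (Set.Finite.biUnion (Finset.finite_toSet Z2) fun a _ => (p a).2.1)) ?_
      intro i hi
      have hi' : f i ≠ CV.top := hi
      by_cases hc1 : Γ.rk i < Γ.rk j
      · rw [hf1 i hc1] at hi'
        exact Or.inl (Or.inl (Or.inl hi'))
      by_cases hc2 : i = j
      · exact Or.inl (Or.inl (Or.inr hc2))
      by_cases hc3 : i ∈ T'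
      · rw [hf3 i hc3 hc1] at hi'
        exact Or.inl (Or.inr hi')
      rw [hf4 i hc3 hc2] at hi'
      split_ifs at hi' with h
      · right
        simp only [Set.mem_iUnion]
        exact ⟨_, h.2.choose_spec.1, hi'⟩
      · exact absurd rfl hi'
    have hleg : ∀ i, rs i → Legit (f i) := by
      intro i hb
      by_cases hc1 : Γ.rk i < Γ.rk j
      · rw [hf1 i hc1]
        exact q2.legit hb
      by_cases hc2 : i = j
      · subst hc2
        rw [hf2]
        exact hV hb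
      by_cases hc3 : i ∈ T'
      · rw [hf3 i hc3 hc1]
        exact q1.legit hb
      rw [hf4 i hc3 hc2]
      split_ifs with h
      · exact (p _).legit hb
      · exact legit_top
    obtain ⟨P, hP⟩ : ∃ P : Cond M rs, ∀ i, P i = f i := ⟨⟨f, hfin, hleg⟩, fun _ => rfl⟩
    have hPq2 : le Γ (below Γ (Γ.rk j)) P q2 := le_of_eq hlow fun i hi => by rw [hP, hf1 i hi]
    have hPq1 : le Γ (below Γ (Γ.rk j)) P q1 := le_trans' hlow hPq2 hq2
    refine ⟨Z2, hZ2Z, hc2, P, fun a ha i hi => ?_⟩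
    have haZ1 := hZ2 ha
    by_cases hc1 : Γ.rk i < Γ.rk j
    · exact le_trans' hlow hPq1 (le_mono hbT' (hq1 a haZ1)) i hc1
    by_cases hc2 : i = j
    · subst hc2
      exact hext P (by rw [hP, hf2]) hPq2 a ha
    by_cases hc3 : i ∈ T'
    · have hle : Γ.rk i ≤ Γ.rk j := ((hmemT' i).1 hc3).2.1
      have heq : Γ.rk i = Γ.rk j := le_antisymm hle (not_lt.1 hc1)
      refine (ext_refl_trans i).2 P q1 (p a) ?_ (ext_of_eq (by rw [hP, hf3 i hc3 hc1]))
        (hq1 a haZ1 i hc3)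
      rw [heq]
      exact hPq1
    by_cases htop : p a i = CV.top
    · exact ext_top htop
    have hex : i ∈ T ∧ ∃ a ∈ Z2, p a i ≠ CV.top := ⟨hi, a, ha, htop⟩
    apply ext_of_eq
    rw [hP, hf4 i hc3 hc2, dif_pos hex]
    by_cases hab : hex.2.choose = a
    · rw [hab]
    · have hiR : i ∉ R := by
        intro h
        apply hc3
        rw [hmemT']
        exact ⟨hi, hjmax i h, hc2⟩
      rcases h1 i hi hiR _ (hZ2Z hex.2.choose_spec.1) a (hZ2Z ha) hab with h | h
      · exact absurd h hex.2.choose_spec.2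
      · exact absurd h htop

end Pool.Agent.R593.Sn
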