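import Pool.Agent.R593.Sn.WitF
import Pool.Agent.R593.Sn.Book

/-!
# The model
-/

set_option autoImplicit false
set_option linter.unusedSectionVars false

namespace Pool.Agent.R593.Sn

open Classical Cardinal Pool.Agent.Helper669.Forcing

theorem exists_forcing : ∃ (K L T P : Type) (_ : Preorder P), #K = ℵ₁ ∧ #L = Order.succ ℵ₁ ∧
    Nonempty P ∧
    (∀ A : Set P, (∀ p ∈ A, ∀ q ∈ A, p ≠ q → ¬ ∃ r, r ≤ p ∧ r ≤ q) → A.Countable) ∧
    ∀ p : P, p ∈ PhiHolds P K L T := by
  let K : Type := (ℵ₁ : Cardinal.{0}).ord.ToType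
  let L : Type := (Order.succ (ℵ₁ : Cardinal.{0})).ord.ToType
  have hK : #K = ℵ₁ := Cardinal.mk_ord_toType _
  have hL : #L = Order.succ ℵ₁ := Cardinal.mk_ord_toType _
  have hKL : #K < #L := by
    rw [hK, hL]; exact Order.lt_succ _
  have hK0 : ℵ₀ < #K := by
    rw [hK]; exact aleph0_lt_aleph_one
  have hL0 : ℵ₀ < #L := hK0.trans hKL
  let W : Type := (Order.succ #L).ord.ToType
  let Λ : Type := Set W
  have hW : #W = Order.succ #L := Cardinal.mk_ord_toType _
  have hLW : #L < #W := by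
    rw [hW]; exact Order.lt_succ _
  have hW0 : ℵ₀ ≤ #W := (hL0.trans hLW).le
  have hΛ : #Λ = 2 ^ #W := Cardinal.mk_set
  have hWΛ : #W < #Λ := by
    rw [hΛ]; exact Cardinal.cantor _
  have hΛ0 : ℵ₀ ≤ #Λ := hW0.trans hWΛ.le
  have hpow : ∀ a : Cardinal.{0}, a ≠ 0 → a ≤ #W → #Λ ^ a = #Λ := by
    intro a ha0 ha
    rw [hΛ, ← Cardinal.power_mul, Cardinal.mul_eq_left hW0 ha ha0]
  have hN : #(NmI K L W Λ) ≤ #Λ :=
    mk_NmI hΛ0 (hpow _ aleph0_ne_zero hW0) ((hKL.trans hLW).trans hWΛ).le (hLW.trans hWΛ).le hWΛ.le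
  have hO : #(Option (K ⊕ L)) ≤ #W := by
    rw [mk_option, mk_sum, lift_id, lift_id]
    have h1 : #K + #L ≤ #W := (add_le_add (hKL.trans hLW).le hLW.le).trans (add_eq_self hW0).le
    exact (add_le_add h1 (Cardinal.one_le_aleph0.trans hW0)).trans (add_eq_self hW0).le
  obtain ⟨e, he⟩ : ∃ e : Λ → (Option (K ⊕ L) → NmI K L W Λ), Function.Surjective e := by
    have h1 : #(Option (K ⊕ L) → NmI K L W Λ) ≤ #Λ := by
      rw [← Cardinal.power_def]
      have h2 : #(Option (K ⊕ L)) ≠ 0 := by
        rw [Cardinal.mk_ne_zero_iff]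
        exact ⟨none⟩
      conv_rhs => rw [← hpow #(Option (K ⊕ L)) h2 hO]
      exact Cardinal.power_le_power_right hN
    obtain ⟨g⟩ := h1
    have : Nonempty (Option (K ⊕ L) → NmI K L W Λ) := ⟨fun _ _ _ => none⟩
    exact ⟨Function.invFun g, Function.invFun_surjective g.injective⟩
  have hG : Good (GI e) := ⟨GI_supp, GI_supp_bnd⟩
  -- the Cohen coordinates of the lowest rank
  let C : Set (Ix K L W Λ) := Set.range Ix.ck
  have hC : ∀ j ∈ C, ¬ rsI K L W Λ j ∧ ∀ k, (GI e).req j k = none := by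
    rintro _ ⟨k, rfl⟩
    exact ⟨fun h => h, fun _ => rfl⟩
  have hckinj : Function.Injective (Ix.ck : K → Ix K L W Λ) := fun k k' h => by
    injection h
  have hLuz : Luz (GI e) C ℵ₁ := luz isRegular_aleph_one aleph0_lt_aleph_one C hC
  have hccc : CCC (GI e) := ccc_of_luz hLuz hK.ge Ix.ck hckinj fun k => ⟨k, rfl⟩
  have hrank : ∀ (ι : Type) (_ : #ι ≤ #L) (x : ι → NmI K L W Λ),
      ∃ β : W, ∀ i, Supp {j | rkI j < (β : WithBot W)} (x i) := fun ι hι x =>
    exists_rank hι hL0.le (fun ι hι f => bounded hL0.le hι f) x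
  have hone : ∀ X : NmI K L W Λ, ∃ β : W, Supp {j | rkI j < (β : WithBot W)} X := by
    intro X
    obtain ⟨β, hβ⟩ := hrank Unit (by
      rw [mk_fintype]
      simpa using Cardinal.one_le_aleph0.trans hL0.le) fun _ => X
    exact ⟨β, hβ ()⟩
  choose rX hrX using hone
  -- the data for the last sentence
  let D : WData (GI e) L (W × Λ) :=
    { tn := fun t => cutN t.1 (e t.2 none)
      trk := fun t => (t.1 : WithBot W)
      cw := fun ξ t => .cw ξ t.1 t.2
      cx := fun X => .cx (rX X)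
      supp := fun t => supp_cutN _ _
      all := fun X => by
        obtain ⟨a, ha⟩ := he fun _ => X
        refine ⟨(rX X, a), ?_⟩
        show cutN (rX X) (e a none) = X
        rw [ha]
        exact cutN_eq (hrX X)
      rk_cw := fun _ _ => rfl
      inj := fun ξ t ξ' t' h => by
        injection h
      cw_rs := fun ξ t => ⟨fun h => h, fun _ => rfl⟩
      cx_rs := fun X => ⟨fun h => h, fun _ => rfl⟩
      cx_supp := fun X => hrX X
      cx_ne := fun X ξ t h => by
        injection h }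
  refine ⟨K, L, W × Λ, PP (GI e), inferInstance, hK, hL,
    ⟨(Cond.one : Cond (K ⊕ L) (rsI K L W Λ))⟩, ?_, ?_⟩
  · intro A hA
    by_contra hcon
    obtain ⟨p, hp, q, hq, hpq, r, h1, h2⟩ := hccc A hcon
    exact hA p hp q hq hpq ⟨r, h1, h2⟩
  · intro p
    refine ⟨?_, ?_, ?_, ?_⟩
    · refine forced_notLoc hLuz K Ix.ck hckinj (fun k => ⟨k, rfl⟩) (fun F => ?_) p
      exact large_fiber isRegular_aleph_one hK.ge
        (lt_of_le_of_lt mk_le_aleph0 aleph0_lt_aleph_one) F
    · refine forced_blockCap hG hccc K (fun B x => ?_) p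
      obtain ⟨β, hβ⟩ := hrank (Option K) (by
        rw [mk_option]
        exact (add_le_add hKL.le (Cardinal.one_le_aleph0.trans hL0.le)).trans
          (add_eq_self hL0.le).le) (fun o => o.elim B x)
      obtain ⟨a, ha⟩ := he fun o => match o with
        | none => B
        | some (.inl k) => x k
        | some (.inr _) => B
      refine ⟨.cp β a, trivial, ?_, fun k => ⟨.inl k, ?_⟩⟩
      · show cutN β (e a none) = B
        rw [ha]
        exact cutN_eq (hβ none)
      · show some (cutN β (e a (some (.inl k)))) = some (x k)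
        rw [ha]
        exact congrArg some (cutN_eq (hβ (some k)))
    · refine forced_dom hG hccc L (fun x => ?_) p
      obtain ⟨β, hβ⟩ := hrank L le_rfl x
      obtain ⟨a, ha⟩ := he fun o => match o with
        | some (.inr k) => x k
        | _ => fun _ _ => none
      refine ⟨.dm β a, fun h => h, fun k => ⟨.inr k, ?_⟩⟩
      show some (cutN β (e a (some (.inr k)))) = some (x k)
      rw [ha]
      exact congrArg some (cutN_eq (hβ k))
    · refine forced_wit D hccc (θ := Order.succ ℵ₁) (isRegular_succ aleph0_lt_aleph_one.le)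
        (aleph0_lt_aleph_one.trans (Order.lt_succ _)) (fun j hj => ?_) (fun F => ?_) p
      · refine lt_of_le_of_lt (GI_small j hj) ?_
        rw [hK]
        exact Order.lt_succ _
      · exact large_fiber (isRegular_succ aleph0_lt_aleph_one.le) hL.ge
          (lt_of_le_of_lt mk_le_aleph0 (aleph0_lt_aleph_one.trans (Order.lt_succ _))) F

end Pool.Agent.R593.Sn
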