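import Pool.Agent.Helper669.Forcing

/-!
# The combinatorial sentence, and its translation into the forcing language
-/

set_option autoImplicit false

namespace Pool.Agent.R593.Sn

open Pool.Agent.Helper669.Forcing

/-- `S` is a slalom of width `n`: every `S n` has at most `n` elements. -/
def Slalom (S : ℕ → ℕ → Prop) : Prop :=
  ∀ (n : ℕ) (t : Finset ℕ), n < t.card → ∃ v ∈ t, ¬ S n v

/-- There is a family of functions, indexed by `K`, such that no slalom of width `n` captures all
of them. -/
def NotLoc (K : Type) : Prop :=
  ∃ y : K → ℕ → ℕ, ∀ S : ℕ → ℕ → Prop, Slalom S → ∃ l : K, ∀ N, ∃ n, N ≤ n ∧ ¬ S n (y l n)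

/-- For every function `b` there are consecutive intervals `[lam m, lam (m + 1))` such that for
every family `z`, indexed by `K`, of functions below `b` some function `y` agrees with each
function of the family at some point of almost every interval. -/
def BlockCap (K : Type) : Prop :=
  ∀ b : ℕ → ℕ, ∃ lam : ℕ → ℕ, (∀ m, lam m < lam (m + 1)) ∧
    ∀ z : K → ℕ → ℕ, (∀ k n, z k n < b n) → ∃ y : ℕ → ℕ, ∀ k, ∃ N, ∀ m, N ≤ m →
      ∃ n, lam m ≤ n ∧ n < lam (m + 1) ∧ y n = z k n

/-- Every family of functions indexed by `L` is eventually dominated by a function. -/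
def Dom (L : Type) : Prop :=
  ∀ x : L → ℕ → ℕ, ∃ g : ℕ → ℕ, ∀ k, ∃ N, ∀ n, N ≤ n → x k n ≤ g n

/-- There are functions `f t` (`t` in `T`), among which all functions occur, and functions
`w ξ t` with values below `4` (`ξ` in `L`, `t` in `T`), such that for every function `y` with
values below `4` there are `ξ` in `L` and a function `x` with values below `4` which differs from
`y` everywhere, but such that for every `t` there are arbitrarily large `n` with `x = w ξ t` on
the interval `[n, n + f t n)`. -/
def Wit (L T : Type) : Prop :=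
  ∃ (f : T → ℕ → ℕ) (w : L → T → ℕ → ℕ), (∀ ξ t k, w ξ t k < 4) ∧
    (∀ g : ℕ → ℕ, ∃ t, f t = g) ∧
    ∀ y : ℕ → ℕ, (∀ k, y k < 4) → ∃ (ξ : L) (x : ℕ → ℕ), (∀ k, x k < 4) ∧ (∀ k, x k ≠ y k) ∧
      ∀ t N, ∃ n, N ≤ n ∧ ∀ k, n ≤ k → k < n + f t n → x k = w ξ t k

/-- The combinatorial sentence. -/
def Phi (K L T : Type) : Prop := NotLoc K ∧ BlockCap K ∧ Dom L ∧ Wit L T

section Sentence

variable {P : Type} [Preorder P]

/-- Forcing version of `Slalom`. -/
def SlalomN (S : ℕ → ℕ → Set P) : Set P :=
  fall fun n => fall fun t : Finset ℕ => fimp (fground (n < t.card))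
    (fex fun v => fand (fground (v ∈ t)) (fnot (meets (S n v))))

/-- Forcing version of: the values of `x` are smaller than `c`. -/
def LtN (x : ℕ → ℕ → Set P) (c : ℕ) : Set P :=
  fall fun n => fall fun v => fimp (meets (x n v)) (fground (v < c))

/-- Forcing version of: `z n < b n` for all `n`. -/
def BelowN (z b : ℕ → ℕ → Set P) : Set P :=
  fall fun n => fall fun v => fall fun c =>
    fimp (fand (meets (z n v)) (meets (b n c))) (fground (v < c))

/-- Forcing version of: `x n ≠ y n` for all `n`. -/
def DiffN (x y : ℕ → ℕ → Set P) : Set P :=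
  fall fun n => fall fun v => fall fun v' =>
    fimp (fand (meets (x n v)) (meets (y n v'))) (fground (v ≠ v'))

/-- Forcing version of: `lam m < lam (m + 1)` for all `m`. -/
def IncrN (lam : ℕ → ℕ → Set P) : Set P :=
  fall fun m => fall fun u => fall fun u' =>
    fimp (fand (meets (lam m u)) (meets (lam (m + 1) u'))) (fground (u < u'))

/-- Forcing version of: for some `N`, for all `m ≥ N` there is `n` with
`lam m ≤ n < lam (m + 1)` and `y n = z n`. -/
def CatchN (lam y z : ℕ → ℕ → Set P) : Set P :=
  fex fun N => fall fun m => fimp (fground (N ≤ m))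
    (fex fun n => fand
      (fex fun u => fand (meets (lam m u)) (fground (u ≤ n)))
      (fand (fex fun u => fand (meets (lam (m + 1) u)) (fground (n < u)))
        (fex fun v => fand (meets (y n v)) (meets (z n v)))))

/-- Forcing version of: `g` eventually dominates `x`. -/
def DominatesN (g x : ℕ → ℕ → Set P) : Set P :=
  fex fun N => fall fun n => fimp (fground (N ≤ n))
    (fex fun a => fex fun b => fand (meets (x n a)) (fand (meets (g n b)) (fground (a ≤ b))))

/-- Forcing version of: for all `N` there is `n ≥ N` such that `x k = w k` for all `k` with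
`n ≤ k < n + f n`. -/
def FollowsN (f w x : ℕ → ℕ → Set P) : Set P :=
  fall fun N => fex fun n => fand (fground (N ≤ n))
    (fall fun k => fimp (fex fun c => fand (meets (f n c)) (fground (n ≤ k ∧ k < n + c)))
      (fex fun v => fand (meets (x k v)) (meets (w k v))))

/-- Forcing version of `NotLoc`; functions are given by names of their graphs. -/
def NotLocN (P : Type) [Preorder P] (K : Type) : Set P :=
  fex fun y : K → ℕ → ℕ → Set P => fand (fall fun l => IsFun (y l))
    (fall fun S : ℕ → ℕ → Set P => fimp (SlalomN S)
      (fex fun l => fall fun N => fex fun n => fand (fground (N ≤ n))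
        (fex fun v => fand (meets (y l n v)) (fnot (meets (S n v))))))

/-- Forcing version of `BlockCap`. -/
def BlockCapN (P : Type) [Preorder P] (K : Type) : Set P :=
  fall fun b : ℕ → ℕ → Set P => fimp (IsFun b)
    (fex fun lam : ℕ → ℕ → Set P => fand (IsFun lam) (fand (IncrN lam)
      (fall fun z : K → ℕ → ℕ → Set P =>
        fimp (fall fun k => fand (IsFun (z k)) (BelowN (z k) b))
          (fex fun y : ℕ → ℕ → Set P => fand (IsFun y) (fall fun k => CatchN lam y (z k))))))

/-- Forcing version of `Dom`. -/
def DomN (P : Type) [Preorder P] (L : Type) : Set P :=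
  fall fun x : L → ℕ → ℕ → Set P => fimp (fall fun k => IsFun (x k))
    (fex fun g : ℕ → ℕ → Set P => fand (IsFun g) (fall fun k => DominatesN g (x k)))

/-- Forcing version of `Wit`. -/
def WitN (P : Type) [Preorder P] (L T : Type) : Set P :=
  fex fun f : T → ℕ → ℕ → Set P => fex fun w : L → T → ℕ → ℕ → Set P =>
    fand (fall fun t => IsFun (f t))
      (fand (fall fun ξ => fall fun t => fand (IsFun (w ξ t)) (LtN (w ξ t) 4))
        (fand (fall fun g : ℕ → ℕ → Set P => fimp (IsFun g) (fex fun t => SameReal (f t) g))
          (fall fun y : ℕ → ℕ → Set P => fimp (fand (IsFun y) (LtN y 4))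
            (fex fun ξ => fex fun x : ℕ → ℕ → Set P => fand (fand (IsFun x) (LtN x 4))
              (fand (DiffN x y) (fall fun t => FollowsN (f t) (w ξ t) x))))))

/-- The translation of `Phi` into the forcing language. -/
def PhiHolds (P : Type) [Preorder P] (K L T : Type) : Set P :=
  fand (NotLocN P K) (fand (BlockCapN P K) (fand (DomN P L) (WitN P L T)))

end Sentence

end Pool.Agent.R593.Sn
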