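import Pool.Agent.R593.Sn.Luz
import Pool.Agent.R593.Sn.Sent

/-!
# Names, and the first three sentences
-/

set_option autoImplicit false
set_option linter.unusedSectionVars false

namespace Pool.Agent.R593.Sn

open Classical Cardinal Pool.Agent.Helper669.Forcing

variable {M I W : Type} {rs : I → Prop} [LinearOrder W] [WellFoundedLT W]
  {Γ : Par M W rs}

/-- the order of `PP Γ` for conditions -/
theorem PP.mk_le {q p : Cond M rs} (h : le Γ Set.univ q p) : @LE.le (PP Γ) _ q p := h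

theorem getD_eq_of_common {a b c : Cond M rs} {j : I} {n : ℕ} (h1 : le Γ Set.univ c a)
    (h2 : le Γ Set.univ c b) (ha : n < (a j).stem.length) (hb : n < (b j).stem.length) :
    (a j).stem.getD n ∅ = (b j).stem.getD n ∅ := by
  rw [← getD_prefix (ext_stem (h1 j (Set.mem_univ _))) ha,
    ← getD_prefix (ext_stem (h2 j (Set.mem_univ _))) hb]

theorem length_le {a c : Cond M rs} (j : I) (h : le Γ Set.univ c a) :
    (a j).stem.length ≤ (c j).stem.length := (ext_stem (h j (Set.mem_univ _))).length_le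

theorem lam_agree {V : ℕ → ℕ → Prop} (hV : ∀ n v v', V n v → V n v' → v = v') {φ φ' : ℕ → ℕ}
    {m : ℕ} (h : ∀ n < lam φ m, V n (φ n)) (h' : ∀ n < lam φ' m, V n (φ' n)) :
    ∀ n < lam φ m, φ n = φ' n := by
  by_contra hcon
  push Not at hcon
  obtain ⟨n0, hn0, hmin⟩ : ∃ n0, (n0 < lam φ m ∧ φ n0 ≠ φ' n0) ∧
      ∀ n < n0, ¬ (n < lam φ m ∧ φ n ≠ φ' n) :=
    ⟨Nat.find hcon, Nat.find_spec hcon, fun n hn => Nat.find_min hcon hn⟩
  have h10 : n0 < lam φ' m := by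
    by_contra hge
    push Not at hge
    have h11 : lam φ' m = lam φ m := lam_congr m fun n hn => by
      by_contra hne
      exact hmin n (by omega) ⟨by omega, fun h => hne h.symm⟩
    omega
  exact hn0.2 (hV n0 _ _ (h n0 hn0.1) (h' n0 h10))

/-- the function with the values `G n (stem n)` added at the coordinate `j` -/
def fnN (Γ : Par M W rs) (j : I) (G : ℕ → Finset (ℕ × ℕ) → ℕ) : ℕ → ℕ → Set (PP Γ) := fun n b =>
  {r | n < (PP.toC r j).stem.length ∧ G n ((PP.toC r j).stem.getD n ∅) = b}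

/-- the function with the raw name `X` -/
def rawN (Γ : Par M W rs) (X : Nm M rs) : ℕ → ℕ → Set (PP Γ) := fun n v =>
  {r | Val (le Γ Set.univ) (PP.toC r) X n v}

/-- a general criterion for functions -/
theorem isFun_of {x : ℕ → ℕ → Set (PP Γ)} (p : PP Γ)
    (h1 : ∀ r ≤ p, ∀ n, ∃ r' ≤ r, ∃ v, r' ∈ x n v)
    (h2 : ∀ r : PP Γ, ∀ n v v', ∀ s s' : PP Γ, s ∈ x n v → s' ∈ x n v' → r ≤ s → r ≤ s' →
      v = v') : p ∈ IsFun x := by
  refine ⟨fun n => ?_, fun n y y' => ?_⟩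
  · refine mem_fex.2 fun r hr => ?_
    obtain ⟨r', hr', v, hv⟩ := h1 r hr n
    exact ⟨r', hr', v, meets_of_mem hv⟩
  · refine mem_fimp.2 fun r hr h => ⟨r, le_rfl, ?_⟩
    obtain ⟨s, hs, z, hz, hsz⟩ := h.1 r le_rfl
    obtain ⟨s', hs', z', hz', hsz'⟩ := h.2 s hs
    exact h2 s' n y y' z z' hz hz' (hs'.trans hsz) hsz'

theorem isFun_fnN (j : I) (G : ℕ → Finset (ℕ × ℕ) → ℕ) (p : PP Γ) : p ∈ IsFun (fnN Γ j G) := by
  refine isFun_of p (fun r _ n => ?_) ?_
  · obtain ⟨r', hr', hlen, -⟩ := ext_long Γ j (n + 1) (PP.toC r)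
    exact ⟨(r' : PP Γ), hr', G n ((r' j).stem.getD n ∅), hlen, rfl⟩
  · intro r n v v' s s' hs hs' h1 h2
    rw [← hs.2, ← hs'.2, getD_eq_of_common (c := PP.toC r) h1 h2 hs.1 hs'.1]

theorem isFun_rawN (X : Nm M rs) (p : PP Γ) : p ∈ IsFun (rawN Γ X) := by
  refine isFun_of p (fun r _ n => ?_) ?_
  · obtain ⟨r', hr', v, hv⟩ := Val.dense (Γ := Γ) low_univ (PP.toC r) X n
    exact ⟨(r' : PP Γ), hr', v, hv⟩
  · intro r n v v' s s' hs hs' h1 h2
    have h3 : Val (le Γ Set.univ) (PP.toC r) X n v := Val.mono low_univ hs h1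
    have h4 : Val (le Γ Set.univ) (PP.toC r) X n v' := Val.mono low_univ hs' h2
    exact h3.unique h4

/-- a promise can be added -/
theorem add_promise (j : I) (m : M) (r : Cond M rs) :
    ∃ r1 : Cond M rs, le Γ Set.univ r1 r ∧ m ∈ (r1 j).pr := by
  obtain ⟨r', hr', hlen, hpr, -⟩ := ext_long Γ j ((r j).pr.card + 1) r
  have hleg : rs j → Legit (M := M) ⟨(r' j).stem, insert m (r' j).pr⟩ := by
    intro hb
    refine ⟨?_, (r'.legit hb).2⟩
    refine (Finset.card_insert_le _ _).trans ?_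
    rw [hpr]
    exact hlen
  let r1 : Cond M rs := upd r' j ⟨(r' j).stem, insert m (r' j).pr⟩ hleg
  have hr1j : r1 j = ⟨(r' j).stem, insert m (r' j).pr⟩ := upd_same _ _ _ _
  have hr1 : le Γ Set.univ r1 r' := by
    intro i _
    by_cases hi : i = j
    · subst hi
      exact ext_same_stem (by rw [hr1j]) (by rw [hr1j]; exact Finset.subset_insert _ _)
    · exact ext_of_eq (upd_of_ne _ _ _ hi)
  refine ⟨r1, le_trans' low_univ hr1 hr', ?_⟩
  rw [hr1j]
  exact Finset.mem_insert_self _ _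

/-- the supports are as they should be -/
structure Good (Γ : Par M W rs) : Prop where
  req : ∀ j k x, Γ.req j k = some x → Supp (below Γ (Γ.rk j)) x
  bnd : ∀ j, Supp (below Γ (Γ.rk j)) (Γ.bnd j)

/-- what the promises do at an unrestricted coordinate -/
theorem promise_kept (hG : Good Γ) {j : I} (hj : ¬ rs j) {m : M} {X : Nm M rs}
    (hreq : Γ.req j m = some X) {r1 a : Cond M rs}
    (hm : m ∈ (r1 j).pr) (ha : le Γ Set.univ a r1) {n v : ℕ} (hn : (r1 j).stem.length ≤ n)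
    (hlen : n < (a j).stem.length) (hv : Val (le Γ Set.univ) a X n v) :
    ∃ z ∈ (a j).stem.getD n ∅, v ≤ z.2 := by
  have h1 : ext Γ j a r1 := ha j (Set.mem_univ _)
  rw [ext_iff] at h1
  have h2 := h1.2.2 m hm _ hreq n hn hlen a (le_refl' _ _)
  have hB : Γ.B j = none := if_neg hj
  rw [hB] at h2
  exact h2 v ((Val.iff_of_supp (low_below _) (Set.subset_univ _) (hG.req _ _ _ hreq)).1 hv)

/-- what the promises do at a restricted coordinate -/
theorem promise_kept' (hG : Good Γ) {j : I} (hj : rs j) {m : M} {X : Nm M rs}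
    (hreq : Γ.req j m = some X) {r1 a : Cond M rs}
    (hm : m ∈ (r1 j).pr) (ha : le Γ Set.univ a r1) {i : ℕ} (hn : (r1 j).stem.length ≤ i)
    (hlen : i < (a j).stem.length) {φ ξ : ℕ → ℕ}
    (hφ : ∀ n < lam φ (i + 1), Val (le Γ Set.univ) a (Γ.bnd j) n (φ n))
    (hξ : ∀ n < lam φ (i + 1), Val (le Γ Set.univ) a X n (ξ n))
    (hlt : ∀ n < lam φ (i + 1), ξ n < φ n) : HitE φ ξ ((a j).stem.getD i ∅) i := by
  have h1 : ext Γ j a r1 := ha j (Set.mem_univ _)
  rw [ext_iff] at h1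
  have h2 := h1.2.2 m hm _ hreq i hn hlen a (le_refl' _ _)
  have hB : Γ.B j = some (Γ.bnd j) := if_pos hj
  rw [hB] at h2
  exact h2 φ ξ
    (fun n hn => (Val.iff_of_supp (low_below _) (Set.subset_univ _) (hG.bnd _)).1 (hφ n hn))
    (fun n hn => (Val.iff_of_supp (low_below _) (Set.subset_univ _) (hG.req _ _ _ hreq)).1
      (hξ n hn)) hlt

/-! ### Domination -/

theorem dominates (hG : Good Γ) {j : I} {m : M} {X : Nm M rs} (hreq : Γ.req j m = some X)
    (hj : ¬ rs j) (x : ℕ → ℕ → Set (PP Γ)) (q : PP Γ)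
    (hX : ∀ q' : PP Γ, q' ≤ q → ∀ n v, Val (le Γ Set.univ) q' X n v → q' ∈ meets (x n v)) :
    q ∈ DominatesN (fnN Γ j fun _ s => s.sup Prod.snd) x := by
  refine mem_fex.2 fun r hr => ?_
  obtain ⟨r1, hr1, hm⟩ := add_promise (Γ := Γ) j m (PP.toC r)
  have hr1r : (@LE.le (PP Γ) _ r1 r) := hr1
  refine ⟨r1, hr1r, (r1 j).stem.length, ?_⟩
  intro n
  refine mem_fimp.2 fun R2 hR2 hn => ⟨R2, le_rfl, ?_⟩
  have hn' : (r1 j).stem.length ≤ n := hn
  refine mem_fex.2 fun R3 hR3 => ?_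
  obtain ⟨a1, ha1, hl1, -⟩ := ext_long Γ j (n + 1) (PP.toC R3)
  obtain ⟨a2, ha2, v, hv⟩ := Val.dense (Γ := Γ) low_univ a1 X n
  have h2R3 : (@LE.le (PP Γ) _ a2 R3) := le_trans' low_univ ha2 ha1
  have h2r1 : (@LE.le (PP Γ) _ a2 r1) := h2R3.trans (hR3.trans hR2)
  have h2q : (@LE.le (PP Γ) _ a2 q) := h2r1.trans (hr1r.trans hr)
  have hlj : n < (a2 j).stem.length := lt_of_lt_of_le hl1 (length_le j ha2)
  obtain ⟨z, hz, hvz⟩ := promise_kept hG hj hreq hm h2r1 hn' hlj hv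
  refine ⟨(a2 : PP Γ), h2R3, v, ?_⟩
  refine mem_fex.2 fun b hb => ⟨b, le_rfl, ((a2 j).stem.getD n ∅).sup Prod.snd, ?_, ?_, ?_⟩
  · exact down_meets _ _ (hX a2 h2q n v hv) _ hb
  · exact down_meets _ _ (meets_of_mem (P := PP Γ)
      (N := fnN Γ j (fun _ s => s.sup Prod.snd) n _) (p := a2) ⟨hlj, rfl⟩) _ hb
  · exact hvz.trans (Finset.le_sup (f := Prod.snd) hz)

theorem forced_dom (hG : Good Γ) (hccc : CCC Γ) (L : Type)
    (hreq : ∀ x : L → Nm M rs, ∃ j, ¬ rs j ∧ ∀ k, ∃ m, Γ.req j m = some (x k))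
    (p : PP Γ) : p ∈ DomN (PP Γ) L := by
  intro x
  refine mem_fimp.2 fun q hq hx => ⟨q, le_rfl, ?_⟩
  choose X hX using fun k => rawF Γ hccc (x k) q (hx k)
  obtain ⟨j, hj, hjm⟩ := hreq X
  refine mem_fex_of_mem (fnN Γ j fun _ s => s.sup Prod.snd) (down_fand (down_IsFun _)
    (down_fall fun _ => down_fex _)) ⟨isFun_fnN j _ q, fun k => ?_⟩
  obtain ⟨m, hm⟩ := hjm k
  exact dominates hG hm hj (x k) q (hX k)

/-! ### The family which is not captured -/

theorem forced_notLoc {θ : Cardinal.{0}} {C : Set I} (hL : Luz Γ C θ) (K : Type) (lc : K → I)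
    (hinj : Function.Injective lc) (hC : ∀ l, lc l ∈ C)
    (hF : ∀ F : K → ℕ, ∃ z, θ ≤ #↥(F ⁻¹' {z})) (p : PP Γ) : p ∈ NotLocN (PP Γ) K := by
  let y : K → ℕ → ℕ → Set (PP Γ) := fun l => fnN Γ (lc l) fun _ s => s.card
  refine mem_fex.2 fun p1 hp1 => ⟨p1, le_rfl, y, fun l => isFun_fnN _ _ _, ?_⟩
  intro S
  refine mem_fimp.2 fun q hq hS => ⟨q, le_rfl, ?_⟩
  refine mem_fex.2 fun r hr => ?_
  by_contra hcon
  -- for each `l` a bad number and a condition
  have hbad : ∀ l : K, ∃ (N : ℕ) (s : PP Γ), s ≤ r ∧ ∀ s' ≤ s, ∀ n, N ≤ n → ∀ v,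
      s' ∈ meets (y l n v) → ∃ s'' ≤ s', s'' ∈ meets (S n v) := by
    intro l
    have h1 : ¬ (r ∈ fall fun N => fex fun n => fand (fground (N ≤ n))
      (fex fun v => fand (meets (y l n v)) (fnot (meets (S n v))))) :=
      fun h => hcon ⟨r, le_rfl, l, h⟩
    simp only [mem_fall, not_forall] at h1
    obtain ⟨N, h1⟩ := h1
    rw [mem_fex] at h1
    push Not at h1
    obtain ⟨s, hs, h2⟩ := h1
    refine ⟨N, s, hs, fun s' hs' n hn v hv => ?_⟩
    by_contra hno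
    push Not at hno
    apply h2 s' hs' n
    refine ⟨hn, mem_fex.2 fun u hu => ⟨u, le_rfl, v, down_meets _ _ hv _ hu, ?_⟩⟩
    intro w hw hm
    exact hno w (hw.trans hu) hm
  choose N s hs hs2 using hbad
  obtain ⟨N0, hunc⟩ := hF N
  obtain ⟨n, hn, q', Z, hZA, hZc, hZle, hZlen, hZinj⟩ := hL K _ hunc
    (fun l => PP.toC (s l)) lc (fun a _ => hC a) hinj.injOn N0
  let v : K → ℕ := fun a => ((q' (lc a)).stem.getD n ∅).card
  have hstep : ∀ Z' : Finset K, Z' ⊆ Z → ∃ q2 : PP Γ, (@LE.le (PP Γ) _ q2 q') ∧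
      ∀ a ∈ Z', q2 ∈ meets (S n (v a)) := by
    intro Z'
    induction Z' using Finset.induction_on with
    | empty => exact fun _ => ⟨q', le_refl' _ _, fun a ha => absurd ha (Finset.notMem_empty _)⟩
    | insert a Z' _ ih =>
      intro hsub
      obtain ⟨q2, h1, h2⟩ := ih ((Finset.subset_insert _ _).trans hsub)
      have haZ : a ∈ Z := hsub (Finset.mem_insert_self _ _)
      have hNa : N a = N0 := hZA haZ
      have h3 : (@LE.le (PP Γ) _ q' (s a)) := hZle a haZ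
      have h4 : (q' : PP Γ) ∈ meets (y a n (v a)) :=
        meets_of_mem (P := PP Γ) (N := y a n (v a)) (p := q') ⟨hZlen a haZ, rfl⟩
      have h13 : (@LE.le (PP Γ) _ q2 (s a)) := le_trans' low_univ h1 h3
      obtain ⟨q3, h5, h6⟩ := hs2 a q2 h13 n (by rw [hNa]; exact hn) (v a)
        (down_meets (P := PP Γ) _ _ h4 _ h1)
      refine ⟨q3, le_trans' low_univ h5 h1, fun b hb => ?_⟩
      rcases Finset.mem_insert.1 hb with rfl | hb
      · exact h6
      · exact down_meets _ _ (h2 b hb) _ h5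
  obtain ⟨q2, hq2, hq2S⟩ := hstep Z Finset.Subset.rfl
  have hcard : n < (Z.image v).card := by
    rw [Finset.card_image_of_injOn]
    · exact hZc
    · intro a ha b hb hab
      by_contra hne
      exact hZinj a ha b hb hne hab
  have hZne : Z.Nonempty := by
    rw [← Finset.card_pos]
    exact lt_of_le_of_lt (Nat.zero_le _) hZc
  obtain ⟨a0, ha0⟩ := hZne
  have hq'r : (@LE.le (PP Γ) _ q' r) := le_trans' low_univ (hZle a0 ha0) (hs a0)
  have hq2q : q2 ≤ q := le_trans' low_univ (le_trans' low_univ hq2 hq'r) hr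
  obtain ⟨r4, hr4, h4⟩ := mem_fimp.1 (hS n (Z.image v)) q2 hq2q hcard
  obtain ⟨r5, hr5, v0, hv0, h5⟩ := mem_fex.1 h4 r4 le_rfl
  obtain ⟨a, ha, hav⟩ := Finset.mem_image.1 hv0
  apply h5 r5 le_rfl
  rw [← hav]
  exact down_meets _ _ (hq2S a ha) _ (hr5.trans hr4)

theorem ccc_of_luz {C : Set I} (hL : Luz Γ C ℵ₁) {K : Type}
    (hK : ℵ₁ ≤ #K) (g : K → I) (hg : Function.Injective g) (hC : ∀ k, g k ∈ C) :
    CCC Γ := by
  intro A hA
  have h1 : ℵ₁ ≤ #A := by
    rw [← not_lt, ← Cardinal.succ_aleph0, Order.lt_succ_iff]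
    exact fun h => hA (Cardinal.le_aleph0_iff_set_countable.1 h)
  obtain ⟨A', hBA, hB⟩ := Cardinal.le_mk_iff_exists_subset.1 h1
  have h2 : #A' ≤ #K := by
    rw [hB]; exact hK
  obtain ⟨e⟩ := h2
  obtain ⟨n, hn, q, Z, -, hc, hq, -, -⟩ := hL A' Set.univ (by rw [mk_univ, hB])
    (fun b => b.1) (fun b => g (e b))
    (fun b _ => hC _) (fun b _ b' _ h => e.injective (hg h)) 1
  have hc' : 1 < Z.card := by omega
  obtain ⟨a, ha, b, hb, hab⟩ := Finset.one_lt_card.1 hc'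
  exact ⟨a.1, hBA a.2, b.1, hBA b.2, fun h => hab (Subtype.ext h), q, hq a ha, hq b hb⟩

end Pool.Agent.R593.Sn
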