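import Pool.Agent.R593.Sn.BCap

/-!
# The last sentence is forced
-/

set_option autoImplicit false
set_option linter.unusedSectionVars false

namespace Pool.Agent.R593.Sn

open Classical Cardinal Pool.Agent.Helper669.Forcing

variable {M I W : Type} {rs : I → Prop} [LinearOrder W] [WellFoundedLT W]
  {Γ : Par M W rs}

/-- a finite set with `d` elements -/
def fs (d : ℕ) : Finset (ℕ × ℕ) := (Finset.range d).image fun i => (i, 0)

theorem card_fs (d : ℕ) : (fs d).card = d := by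
  unfold fs
  rw [Finset.card_image_of_injective _ (fun i i' h => (Prod.mk.inj h).1), Finset.card_range]

/-- deciding values of a name by changing the condition on the support of the name only -/
theorem decide_on {S : Set I} (hS : Low Γ S) {X : Nm M rs} (hX : Supp S X) (U : ℕ)
    (r : Cond M rs) : ∃ r', le Γ Set.univ r' r ∧ (∀ i ∉ S, r' i = r i) ∧
      ∃ ξ : ℕ → ℕ, ∀ n < U, Val (le Γ Set.univ) r' X n (ξ n) := by
  obtain ⟨t, ht, ξ, hξ⟩ := decide_vals (Γ := Γ) X U r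
  refine ⟨mix S t r, mix_le hS (le_mono (Set.subset_univ S) ht), fun i hi => mix_notMem t r hi,
    ξ, fun n hn => ?_⟩
  exact Val.congr_supp hS hX (fun i hi => (mix_mem t r hi).symm) (hξ n hn)

/-- appending entries at a coordinate without requirements -/
theorem append_at (j : I) (hrs : ¬ rs j) (hreq : ∀ k, Γ.req j k = none) (r : Cond M rs) (n c : ℕ)
    (hn : (r j).stem.length ≤ n) (d : ℕ → ℕ) :
    ∃ r', le Γ Set.univ r' r ∧ (∀ i, i ≠ j → r' i = r i) ∧ (r' j).stem.length = n + c ∧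
      ∀ k, n ≤ k → k < n + c → (r' j).stem.getD k ∅ = fs (d k) := by
  let st : List (Finset (ℕ × ℕ)) := (r j).stem ++ (List.range (n + c - (r j).stem.length)).map
    fun i => fs (d ((r j).stem.length + i))
  let r' : Cond M rs := upd r j ⟨st, (r j).pr⟩ (fun h => absurd h hrs)
  have hj : r' j = ⟨st, (r j).pr⟩ := upd_same _ _ _ _
  have ho : ∀ i, i ≠ j → r' i = r i := fun i hi => upd_of_ne _ _ _ hi
  refine ⟨r', ?_, ho, ?_, ?_⟩
  · intro i _
    by_cases hi : i = j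
    · subst hi
      refine ext_noreq hreq ?_ ?_
      · rw [hj]
        exact List.prefix_append _ _
      · rw [hj]
    · exact ext_of_eq (ho i hi)
  · rw [hj]
    show st.length = n + c
    simp only [st, List.length_append, List.length_map, List.length_range]
    omega
  · intro k hk hk'
    rw [hj]
    show st.getD k ∅ = _
    simp only [st]
    rw [getD_append_map _ (by omega) (by omega)]
    congr 2
    omega

/-- the data for the last sentence -/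
structure WData (Γ : Par M W rs) (L T : Type) where
  /-- the names of the functions -/
  tn : T → Nm M rs
  /-- their ranks -/
  trk : T → W
  /-- the Cohen coordinates -/
  cw : L → T → I
  /-- the Cohen coordinates used for `x` -/
  cx : Nm M rs → I
  supp : ∀ t, Supp (below Γ (trk t)) (tn t)
  all : ∀ X, ∃ t, tn t = X
  rk_cw : ∀ ξ t, Γ.rk (cw ξ t) = trk t
  inj : ∀ ξ t ξ' t', cw ξ t = cw ξ' t' → ξ = ξ'
  cw_rs : ∀ ξ t, ¬ rs (cw ξ t) ∧ ∀ k, Γ.req (cw ξ t) k = none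
  cx_rs : ∀ X, ¬ rs (cx X) ∧ ∀ k, Γ.req (cx X) k = none
  cx_supp : ∀ X, Supp (below Γ (Γ.rk (cx X))) X
  cx_ne : ∀ X ξ t, cx X ≠ cw ξ t

variable {L T : Type}

/-- `ξ` is good for the name `Y` -/
def GoodFor (D : WData Γ L T) (Y : Nm M rs) (q : Cond M rs) (ξ : L) : Prop :=
  ∀ (t : T) (N : ℕ) (r : Cond M rs), le Γ Set.univ r q → ∃ r', le Γ Set.univ r' r ∧
    ∃ n, N ≤ n ∧ ∃ c, Val (le Γ Set.univ) r' (D.tn t) n c ∧ ∃ η : ℕ → ℕ, ∀ k, n ≤ k → k < n + c →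
      Val (le Γ Set.univ) r' Y k (η k) ∧ k < (r' (D.cw ξ t)).stem.length ∧
      ((r' (D.cw ξ t)).stem.getD k ∅).card % 4 ≠ η k

theorem exists_good (D : WData Γ L T) {θ : Cardinal.{0}} (hθ : θ.IsRegular) (hθ0 : ℵ₀ < θ)
    (hsm : ∀ j, rs j → #{k : M | Γ.req j k ≠ none} < θ)
    (hF : ∀ F : L → ℕ × ℕ × ℕ, ∃ z, θ ≤ #↥(F ⁻¹' {z})) (Y : Nm M rs) (q : Cond M rs)
    (hY : ∀ q', le Γ Set.univ q' q → ∀ k u, Val (le Γ Set.univ) q' Y k u → u < 4) :
    ∃ ξ, GoodFor D Y q ξ := by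
  by_contra hcon
  push Not at hcon
  have hbad : ∀ ξ, ∃ (t : T) (N : ℕ) (r : Cond M rs), le Γ Set.univ r q ∧
      ∀ r', le Γ Set.univ r' r → ∀ n, N ≤ n → ∀ c, Val (le Γ Set.univ) r' (D.tn t) n c →
        ∀ η : ℕ → ℕ, ∃ k, n ≤ k ∧ k < n + c ∧ (Val (le Γ Set.univ) r' Y k (η k) →
          k < (r' (D.cw ξ t)).stem.length →
          ((r' (D.cw ξ t)).stem.getD k ∅).card % 4 = η k) := by
    intro ξ
    have h := hcon ξ
    unfold GoodFor at h
    push Not at h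
    obtain ⟨t, N, r, hr, h⟩ := h
    exact ⟨t, N, r, hr, fun r' hr' n hn c hc η => by
      obtain ⟨k, h1, h2, h3⟩ := h r' hr' n hn c hc η
      exact ⟨k, h1, h2, h3⟩⟩
  choose t N r hr hbad using hbad
  -- decide the length of the interval
  have hs : ∀ ξ, ∃ s, le Γ Set.univ s (r ξ) ∧ s (D.cw ξ (t ξ)) = r ξ (D.cw ξ (t ξ)) ∧
      ∃ c, Val (le Γ Set.univ) s (D.tn (t ξ))
        (max (N ξ) (r ξ (D.cw ξ (t ξ))).stem.length) c := by
    intro ξ
    obtain ⟨s, h1, h2, η, h3⟩ := decide_on (Γ := Γ) (low_below (D.trk (t ξ))) (D.supp (t ξ))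
      (max (N ξ) (r ξ (D.cw ξ (t ξ))).stem.length + 1) (r ξ)
    refine ⟨s, h1, h2 _ ?_, _, h3 _ (Nat.lt_succ_self _)⟩
    intro h
    have h' : Γ.rk (D.cw ξ (t ξ)) < D.trk (t ξ) := h
    rw [D.rk_cw] at h'
    exact lt_irrefl _ h'
  choose s hsr hscw c hsc using hs
  obtain ⟨⟨n, c0, ℓ⟩, hfib⟩ := hF fun ξ =>
    (max (N ξ) (r ξ (D.cw ξ (t ξ))).stem.length, c ξ, (r ξ (D.cw ξ (t ξ))).stem.length)
  have hfib' : ∀ ξ ∈ (fun ξ => (max (N ξ) (r ξ (D.cw ξ (t ξ))).stem.length, c ξ,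
      (r ξ (D.cw ξ (t ξ))).stem.length)) ⁻¹' {(n, c0, ℓ)},
      max (N ξ) (r ξ (D.cw ξ (t ξ))).stem.length = n ∧ c ξ = c0 ∧
        (r ξ (D.cw ξ (t ξ))).stem.length = ℓ := by
    intro ξ hξ
    have h : (max (N ξ) (r ξ (D.cw ξ (t ξ))).stem.length, c ξ,
      (r ξ (D.cw ξ (t ξ))).stem.length) = (n, c0, ℓ) := hξ
    simp only [Prod.mk.injEq] at h
    exact h
  obtain ⟨Z, hZA, hZc, hZ⟩ := many (Γ := Γ) hθ hθ0 hsm _ hfib s (fun ξ => D.cw ξ (t ξ))
    (fun ξ _ => D.cw_rs _ _) (fun ξ _ ξ' _ h => D.inj _ _ _ _ h)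
    (Fintype.card (Fin c0 → Fin 4))
  have hcardZ : Fintype.card Z = Fintype.card (Fin c0 → Fin 4) := by
    rw [Fintype.card_coe, hZc]
  obtain ⟨e⟩ := Fintype.card_eq.1 hcardZ
  let dg : L → ℕ → ℕ := fun ξ i =>
    if h : ξ ∈ Z ∧ i < c0 then (e ⟨ξ, h.1⟩ ⟨i, h.2⟩ : ℕ) + 1 else 0
  obtain ⟨q1, hq1⟩ := hZ fun ξ => List.replicate (n - ℓ) ∅ ++ (List.range c0).map fun i =>
    fs (dg ξ i)
  obtain ⟨q2, hq2, η, hη⟩ := decide_vals (Γ := Γ) Y (n + c0) q1
  have hZne : Z.Nonempty := by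
    rw [← Finset.card_pos, hZc]
    exact Fintype.card_pos
  obtain ⟨ξ0, hξ0⟩ := hZne
  have hη4 : ∀ k < n + c0, η k < 4 := fun k hk =>
    hY q2 (le_trans' low_univ hq2 (le_trans' low_univ (hq1 ξ0 hξ0).1
      (le_trans' low_univ (hsr ξ0) (hr ξ0)))) k _ (hη k hk)
  -- the index which corresponds to the decided values
  obtain ⟨ξ, hξe⟩ : ∃ ξ : Z, ∀ i : Fin c0, (e ξ i : ℕ) = η (n + i) := by
    refine ⟨e.symm fun i => ⟨η (n + i), hη4 _ (by omega)⟩, fun i => ?_⟩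
    rw [Equiv.apply_symm_apply]
  have hξA := hfib' ξ.1 (hZA ξ.2)
  obtain ⟨hq1a, hq1b⟩ := hq1 ξ.1 ξ.2
  have hq2r : le Γ Set.univ q2 (r ξ.1) := le_trans' low_univ hq2 (le_trans' low_univ hq1a
    (hsr ξ.1))
  have hval : Val (le Γ Set.univ) q2 (D.tn (t ξ.1)) n c0 := by
    have h1 := hsc ξ.1
    rw [hξA.1, hξA.2.1] at h1
    exact h1.mono low_univ (le_trans' low_univ hq2 hq1a)
  obtain ⟨k, hk1, hk2, hk3⟩ := hbad ξ.1 q2 hq2r n (by rw [← hξA.1]; exact le_max_left _ _) c0 hval η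
  -- the stem
  have hpre : (s ξ.1 (D.cw ξ.1 (t ξ.1))).stem ++ (List.replicate (n - ℓ) ∅ ++
      (List.range c0).map fun i => fs (dg ξ.1 i)) <+: (q2 (D.cw ξ.1 (t ξ.1))).stem :=
    hq1b.trans (ext_stem (hq2 _ (Set.mem_univ _)))
  have hslen : (s ξ.1 (D.cw ξ.1 (t ξ.1))).stem.length = ℓ := by
    rw [hscw]
    exact hξA.2.2
  have hℓn : ℓ ≤ n := by
    rw [← hξA.1, ← hξA.2.2]
    exact le_max_right _ _
  rw [← List.append_assoc] at hpre
  have hlen1 : ((s ξ.1 (D.cw ξ.1 (t ξ.1))).stem ++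
      List.replicate (n - ℓ) (∅ : Finset (ℕ × ℕ))).length = n := by
    rw [List.length_append, List.length_replicate, hslen]
    omega
  have hlen2 : k < (((s ξ.1 (D.cw ξ.1 (t ξ.1))).stem ++ List.replicate (n - ℓ) ∅) ++
      (List.range c0).map fun i => fs (dg ξ.1 i)).length := by
    rw [List.length_append, hlen1, List.length_map, List.length_range]
    exact hk2
  have hlen3 : k < (q2 (D.cw ξ.1 (t ξ.1))).stem.length := lt_of_lt_of_le hlen2 hpre.length_le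
  have hentry : (q2 (D.cw ξ.1 (t ξ.1))).stem.getD k ∅ = fs (dg ξ.1 (k - n)) := by
    rw [getD_prefix hpre hlen2, getD_append_map _ (by rw [hlen1]; exact hk1)
      (by rw [hlen1]; exact hk2), hlen1]
  have h5 := hk3 (hη k hk2) hlen3
  rw [hentry, card_fs] at h5
  have hkn : k - n < c0 := by omega
  have h6 : dg ξ.1 (k - n) = η k + 1 := by
    simp only [dg, dif_pos (show ξ.1 ∈ Z ∧ k - n < c0 from ⟨ξ.2, hkn⟩)]
    have h7 := hξe ⟨k - n, hkn⟩
    have h8 : n + (k - n) = k := by omega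
    simp only [h8] at h7
    rw [h7]
  rw [h6] at h5
  have h9 := hη4 k hk2
  omega

/-- the name of `x` -/
def xN (D : WData Γ L T) (Y : Nm M rs) : ℕ → ℕ → Set (PP Γ) := fun k v =>
  {r | ∃ u, Val (le Γ Set.univ) (PP.toC r) Y k u ∧ k < (PP.toC r (D.cx Y)).stem.length ∧
    (u + 1 + ((PP.toC r (D.cx Y)).stem.getD k ∅).card % 3) % 4 = v}

theorem isFun_xN (D : WData Γ L T) (Y : Nm M rs) (p : PP Γ) : p ∈ IsFun (xN D Y) := by
  refine isFun_of p (fun r _ k => ?_) ?_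
  · obtain ⟨r1, hr1, hlen, -⟩ := ext_long Γ (D.cx Y) (k + 1) (PP.toC r)
    obtain ⟨r2, hr2, v, hv⟩ := Val.dense (Γ := Γ) low_univ r1 Y k
    refine ⟨(r2 : PP Γ), le_trans' low_univ hr2 hr1, _, v, hv, ?_, rfl⟩
    exact lt_of_lt_of_le hlen (length_le _ hr2)
  · rintro r k v v' s s' ⟨u, h1, h2, rfl⟩ ⟨u', h1', h2', rfl⟩ hs hs'
    rw [(h1.mono low_univ hs).unique (h1'.mono low_univ hs'),
      getD_eq_of_common (c := PP.toC r) hs hs' h2 h2']

/-- from the values of one condition to the forced statement -/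
theorem follows_of (D : WData Γ L T) (Y : Nm M rs) (t : T) (ξ : L) (q : PP Γ)
    (h : ∀ (N : ℕ) (r : Cond M rs), le Γ Set.univ r q.toC → ∃ r', le Γ Set.univ r' r ∧
      ∃ n, N ≤ n ∧ ∃ c, Val (le Γ Set.univ) r' (D.tn t) n c ∧ ∀ k, n ≤ k → k < n + c →
        ∃ u, Val (le Γ Set.univ) r' Y k u ∧ k < (r' (D.cx Y)).stem.length ∧
          k < (r' (D.cw ξ t)).stem.length ∧
          (u + 1 + ((r' (D.cx Y)).stem.getD k ∅).card % 3) % 4 =
            ((r' (D.cw ξ t)).stem.getD k ∅).card % 4) :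
    q ∈ FollowsN (rawN Γ (D.tn t)) (fnN Γ (D.cw ξ t) fun _ s => s.card % 4) (xN D Y) := by
  intro N
  refine mem_fex.2 fun r hr => ?_
  obtain ⟨r', hr', n, hn, c, hc, hk⟩ := h N (PP.toC r) hr
  refine ⟨(r' : PP Γ), hr', n, hn, fun k => ?_⟩
  refine mem_fimp.2 fun s hs hsk => ⟨s, le_rfl, ?_⟩
  obtain ⟨s1, hs1, c', hc', hk'⟩ := mem_fex.1 hsk s le_rfl
  obtain ⟨s2, hs2, z, hz, hsz⟩ := hc' s1 le_rfl
  have hc1 : Val (le Γ Set.univ) (PP.toC s2) (D.tn t) n c' := Val.mono low_univ hz hsz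
  have hs2r : le Γ Set.univ (PP.toC s2) r' :=
    le_trans' low_univ hs2 (le_trans' low_univ hs1 hs)
  have hcc : c' = c := hc1.unique (hc.mono low_univ hs2r)
  rw [hcc] at hk'
  obtain ⟨u, h1, h2, h3, h4⟩ := hk k hk'.1 hk'.2
  refine mem_fex_of_mem (((r' (D.cw ξ t)).stem.getD k ∅).card % 4)
    (down_fand (down_meets _) (down_meets _)) ⟨?_, ?_⟩
  · exact down_meets _ _ (meets_of_mem (P := PP Γ) (N := xN D Y k _) (p := r')
      ⟨u, h1, h2, h4⟩) _ hs
  · exact down_meets _ _ (meets_of_mem (P := PP Γ)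
      (N := fnN Γ (D.cw ξ t) (fun _ s => s.card % 4) k _) (p := r') ⟨h3, rfl⟩) _ hs

theorem follows (D : WData Γ L T) (Y : Nm M rs) (q : PP Γ)
    (hY : ∀ q', le Γ Set.univ q' q.toC → ∀ k u, Val (le Γ Set.univ) q' Y k u → u < 4) (ξ : L)
    (hξ : GoodFor D Y q.toC ξ) (t : T) :
    q ∈ FollowsN (rawN Γ (D.tn t)) (fnN Γ (D.cw ξ t) fun _ s => s.card % 4) (xN D Y) := by
  refine follows_of D Y t ξ q fun N r hr => ?_
  have hne : D.cx Y ≠ D.cw ξ t := D.cx_ne _ _ _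
  rcases lt_or_ge (Γ.rk (D.cx Y)) (D.trk t) with hrk | hrk
  · -- the real `x` is added before
    obtain ⟨n, hndef⟩ : ∃ n, n = max N (r (D.cw ξ t)).stem.length := ⟨_, rfl⟩
    have hcwS : D.cw ξ t ∉ below Γ (D.trk t) := by
      intro h
      have h' : Γ.rk (D.cw ξ t) < D.trk t := h
      rw [D.rk_cw] at h'
      exact lt_irrefl _ h'
    obtain ⟨r1, h1, h1', f, hf⟩ := decide_on (Γ := Γ) (low_below (D.trk t)) (D.supp t) (n + 1) r
    obtain ⟨c, hcdef⟩ : ∃ c, c = f n := ⟨_, rfl⟩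
    obtain ⟨r2, h2, h2', η, hη⟩ := decide_on (Γ := Γ) (low_below (D.trk t))
      ((D.cx_supp Y).mono fun i hi => lt_trans hi hrk) (n + c) r1
    obtain ⟨r3, h3, hlen3, -, h3'⟩ := ext_long Γ (D.cx Y) (n + c) r2
    have hcw3 : r3 (D.cw ξ t) = r (D.cw ξ t) := by
      rw [h3' _ (by rw [D.rk_cw]; exact not_lt.2 hrk.le) (Ne.symm hne), h2' _ hcwS, h1' _ hcwS]
    obtain ⟨r4, h4, h4', h4len, h4e⟩ := append_at (Γ := Γ) (D.cw ξ t) (D.cw_rs ξ t).1
      (D.cw_rs ξ t).2 r3 n c (by rw [hcw3, hndef]; exact le_max_right _ _)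
      (fun k => (η k + 1 + ((r3 (D.cx Y)).stem.getD k ∅).card % 3) % 4)
    have h42 : le Γ Set.univ r4 r2 := le_trans' low_univ h4 h3
    have h41 : le Γ Set.univ r4 r1 := le_trans' low_univ h42 h2
    refine ⟨r4, le_trans' low_univ h41 h1, n, by rw [hndef]; exact le_max_left _ _, c, ?_, ?_⟩
    · rw [hcdef]
      exact (hf n (Nat.lt_succ_self n)).mono low_univ h41
    · intro k hk hk'
      refine ⟨η k, (hη k hk').mono low_univ h42, ?_, by omega, ?_⟩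
      · rw [h4' _ hne]
        omega
      · rw [h4' _ hne, h4e k hk hk', card_fs]
        omega
  · -- the real `x` is added later
    let S : Set I := below Γ (Γ.rk (D.cx Y)) ∪ {D.cw ξ t}
    have hS : Low Γ S := by
      rintro j (hj | hj) i hi
      · exact Or.inl (lt_trans hi hj)
      · have hj' : j = D.cw ξ t := hj
        refine Or.inl (lt_of_lt_of_le hi ?_)
        rw [hj', D.rk_cw]
        exact hrk
    have hcxS : D.cx Y ∉ S := by
      rintro (h | h)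
      · exact lt_irrefl _ h
      · exact hne h
    obtain ⟨r', hr', n, hn, c, hc, η, hη⟩ := hξ t (max N (r (D.cx Y)).stem.length) r hr
    let r1 : Cond M rs := mix S r' r
    have h1 : le Γ Set.univ r1 r := mix_le hS (le_mono (Set.subset_univ S) hr')
    have h1S : ∀ i ∈ S, r' i = r1 i := fun i hi => (mix_mem r' r hi).symm
    have h1cx : r1 (D.cx Y) = r (D.cx Y) := mix_notMem r' r hcxS
    have h1cw : r1 (D.cw ξ t) = r' (D.cw ξ t) := mix_mem r' r (Or.inr rfl)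
    have hc1 : Val (le Γ Set.univ) r1 (D.tn t) n c :=
      Val.congr_supp hS ((D.supp t).mono fun i hi => Or.inl (lt_of_lt_of_le hi hrk)) h1S hc
    have hη1 : ∀ k, n ≤ k → k < n + c → Val (le Γ Set.univ) r1 Y k (η k) := fun k hk hk' =>
      Val.congr_supp hS ((D.cx_supp Y).mono fun i hi => Or.inl hi) h1S (hη k hk hk').1
    obtain ⟨r2, h2, h2', h2len, h2e⟩ := append_at (Γ := Γ) (D.cx Y) (D.cx_rs Y).1
      (D.cx_rs Y).2 r1 n c (by rw [h1cx]; exact (le_max_right _ _).trans hn)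
      (fun k => (((r1 (D.cw ξ t)).stem.getD k ∅).card % 4 + 3 - η k) % 4)
    refine ⟨r2, le_trans' low_univ h2 h1, n, (le_max_left _ _).trans hn, c,
      hc1.mono low_univ h2, ?_⟩
    intro k hk hk'
    obtain ⟨-, hk2, hk3⟩ := hη k hk hk'
    have hη4 : η k < 4 := hY r1 (le_trans' low_univ h1 hr) k _ (hη1 k hk hk')
    refine ⟨η k, (hη1 k hk hk').mono low_univ h2, by omega, ?_, ?_⟩
    · rw [h2' _ (Ne.symm hne), h1cw]
      exact hk2
    · rw [h2' _ (Ne.symm hne), h2e k hk hk', card_fs]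
      rw [← h1cw] at hk3
      generalize ((r1 (D.cw ξ t)).stem.getD k ∅).card = w at hk3 ⊢
      omega

theorem forced_wit (D : WData Γ L T) (hccc : CCC Γ) {θ : Cardinal.{0}} (hθ : θ.IsRegular)
    (hθ0 : ℵ₀ < θ) (hsm : ∀ j, rs j → #{k : M | Γ.req j k ≠ none} < θ)
    (hF : ∀ F : L → ℕ × ℕ × ℕ, ∃ z, θ ≤ #↥(F ⁻¹' {z})) (p : PP Γ) :
    p ∈ WitN (PP Γ) L T := by
  refine mem_fex.2 fun p1 hp1 => ⟨p1, le_rfl, fun t => rawN Γ (D.tn t), ?_⟩
  refine mem_fex.2 fun p2 hp2 => ⟨p2, le_rfl,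
    fun ξ t => fnN Γ (D.cw ξ t) fun _ s => s.card % 4, ?_, ?_, ?_, ?_⟩
  · exact fun t => isFun_rawN _ _
  · intro ξ t
    refine ⟨isFun_fnN _ _ _, fun n v => ?_⟩
    refine mem_fimp.2 fun r hr h => ⟨r, le_rfl, ?_⟩
    obtain ⟨s, hs, z, hz, hsz⟩ := h r le_rfl
    show v < 4
    rw [← hz.2]
    exact Nat.mod_lt _ (by norm_num)
  · intro g
    refine mem_fimp.2 fun q hq hg => ⟨q, le_rfl, ?_⟩
    obtain ⟨X, hX⟩ := rawF Γ hccc g q hg
    obtain ⟨t, ht⟩ := D.all X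
    refine mem_fex_of_mem t (down_SameReal _ _) ?_
    intro n a b
    refine mem_fimp.2 fun r hr h => ⟨r, le_rfl, ?_⟩
    obtain ⟨s, hs, z, hz, hsz⟩ := h.1 r le_rfl
    have h1 : Val (le Γ Set.univ) (PP.toC s) X n a := by
      rw [← ht]
      exact Val.mono low_univ hz hsz
    have h2 : s ∈ meets (g n a) := hX s (hs.trans hr) n a h1
    exact IsFun.unique (down_IsFun g q hg s (hs.trans hr)) h2 (down_meets _ _ h.2 _ hs)
  · intro y
    refine mem_fimp.2 fun q hq hy => ⟨q, le_rfl, ?_⟩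
    obtain ⟨Y, hYX⟩ := rawF Γ hccc y q hy.1
    have hY : ∀ q', le Γ Set.univ q' q.toC → ∀ k u, Val (le Γ Set.univ) q' Y k u → u < 4 := by
      intro q' hq' k u hu
      obtain ⟨s, _, hs⟩ := mem_fimp.1 (hy.2 k u) q' hq' (hYX q' hq' k u hu)
      exact hs
    obtain ⟨ξ, hξ⟩ := exists_good D hθ hθ0 hsm hF Y q.toC hY
    refine mem_fex_of_mem ξ (down_fex _) ?_
    refine mem_fex_of_mem (xN D Y) (down_fand (down_fand (down_IsFun _)
      (down_fall fun _ => down_fall fun _ => down_fimp _ _))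
      (down_fand (down_fall fun _ => down_fall fun _ => down_fall fun _ => down_fimp _ _)
      (down_fall fun _ => down_fall fun _ => down_fex _))) ⟨⟨isFun_xN D Y q, ?_⟩, ?_, ?_⟩
    · intro n v
      refine mem_fimp.2 fun r hr h => ⟨r, le_rfl, ?_⟩
      obtain ⟨s, hs, z, ⟨u, _, _, hz⟩, hsz⟩ := h r le_rfl
      show v < 4
      rw [← hz]
      exact Nat.mod_lt _ (by norm_num)
    · intro k v v'
      refine mem_fimp.2 fun r hr h => ⟨r, le_rfl, ?_⟩
      obtain ⟨s, hs, z, ⟨u, hu, _, hz⟩, hsz⟩ := h.1 r le_rfl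
      have h1 : Val (le Γ Set.univ) (PP.toC s) Y k u := hu.mono low_univ hsz
      have h2 : s ∈ meets (y k u) := hYX s (hs.trans hr) k u h1
      have h3 : u = v' := IsFun.unique (down_IsFun y q hy.1 s (hs.trans hr)) h2
        (down_meets _ _ h.2 _ hs)
      have h4 : u < 4 := hY s.toC (hs.trans hr) k u h1
      show v ≠ v'
      rw [← hz, ← h3]
      omega
    · exact fun t => follows D Y q hY ξ hξ t

end Pool.Agent.R593.Sn
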