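import Pool.Agent.R593.Sn.Sent
import Pool.Agent.H20R3.Yor.Bart

/-!
# What the sentence says about the cardinal invariants
-/

set_option autoImplicit false

namespace Pool.Agent.R593.Sn

open Filter Set Cardinal MeasureTheory

/-- The standard product (fair coin-tossing) measure on the Cantor space. -/
noncomputable def coin : Measure (ℕ → Bool) :=
  Measure.infinitePi fun _ : ℕ => (PMF.uniformOfFintype Bool).toMeasure

/-- The ideal of the null subsets of the Cantor space. -/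
def NullId : Set (Set (ℕ → Bool)) := {A | coin A = 0}

/-- The ideal of the strong measure zero subsets of the Cantor space: for every `f` there are
finite binary sequences `s n` of length `f n` such that every point of `X` extends some `s n`. -/
def StrongNull : Set (Set (ℕ → Bool)) :=
  {X | ∀ f : ℕ → ℕ, ∃ s : ∀ n, Fin (f n) → Bool, ∀ x ∈ X, ∃ n, ∀ i : Fin (f n), x i = s n i}

/-- The additivity of `J`: the least cardinality of a subfamily of `J` whose union is not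
in `J`. -/
noncomputable def addOf (J : Set (Set (ℕ → Bool))) : Cardinal.{0} :=
  sInf {κ | ∃ F : Set (Set (ℕ → Bool)), F ⊆ J ∧ ⋃₀ F ∉ J ∧ #F = κ}

/-- The bounding number: the least cardinality of a family of functions from `ℕ` to `ℕ` which is
not eventually dominated by one function. -/
noncomputable def bNum : Cardinal.{0} :=
  sInf {κ | ∃ F : Set (ℕ → ℕ), (¬ ∃ g : ℕ → ℕ, ∀ f ∈ F, ∀ᶠ n in atTop, f n ≤ g n) ∧ #F = κ}

theorem addOf_le {J F : Set (Set (ℕ → Bool))} (hF : F ⊆ J) (h : ⋃₀ F ∉ J) : addOf J ≤ #F :=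
  csInf_le' ⟨F, hF, h, rfl⟩

theorem exists_addOf {J : Set (Set (ℕ → Bool))} (h : ⋃₀ J ∉ J) :
    ∃ F : Set (Set (ℕ → Bool)), F ⊆ J ∧ ⋃₀ F ∉ J ∧ #F = addOf J :=
  csInf_mem (s := {κ | ∃ F : Set (Set (ℕ → Bool)), F ⊆ J ∧ ⋃₀ F ∉ J ∧ #F = κ})
    ⟨_, J, Subset.rfl, h, rfl⟩

/-! ### `add(N) ≤ #K` -/

theorem log_spec {n : ℕ} {m : ℕ} (h1 : 8 ^ m ≤ n) (h2 : n < 8 ^ (m + 1)) :
    m = Nat.log 8 n := (Nat.log_eq_of_pow_le_of_lt_pow h1 h2).symm

theorem notLoc_add {K : Type} (h : NotLoc K) : addOf NullId ≤ #K := by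
  classical
  by_contra hcon
  push Not at hcon
  obtain ⟨y, hy⟩ := h
  let x : K → ℕ → ℕ := fun l m => Encodable.encode ((List.range (8 ^ (m + 1))).map (y l))
  let dc : ℕ → ℕ → ℕ := fun c n => ((Encodable.decode c : Option (List ℕ)).getD []).getD n 0
  have hdc : ∀ l m n, n < 8 ^ (m + 1) → dc (x l m) n = y l n := by
    intro l m n hn
    simp only [dc, x, Encodable.encodek, Option.getD_some]
    rw [List.getD_eq_getElem _ _ (by simpa using hn)]
    simp
  have hF : range (fun l => Pool.Agent.H20R3.Yor.nullG (x l)) ⊆ NullId := by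
    rintro _ ⟨l, rfl⟩
    exact Pool.Agent.H20R3.Yor.nullG_null _
  have hU : ⋃₀ range (fun l => Pool.Agent.H20R3.Yor.nullG (x l)) ∈ NullId := by
    by_contra hU
    exact absurd ((addOf_le hF hU).trans mk_range_le) (not_le.2 hcon)
  obtain ⟨φ, hφ1, hφ2⟩ := Pool.Agent.H20R3.Yor.bart (show Pool.Agent.H20R3.Yor.coin _ = 0 from hU)
  obtain ⟨l, hl⟩ := hy (fun n v => ∃ m, 8 ^ m ≤ n ∧ n < 8 ^ (m + 1) ∧ ∃ c ∈ φ m, dc c n = v) (by
    intro n t ht
    by_contra hcon
    push Not at hcon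
    have h1 : t ⊆ (φ (Nat.log 8 n)).image fun c => dc c n := by
      intro v hv
      obtain ⟨m, hm1, hm2, c, hc, hcv⟩ := hcon v hv
      rw [← log_spec hm1 hm2]
      exact Finset.mem_image.2 ⟨c, hc, hcv⟩
    have hn0 : n ≠ 0 := by
      rintro rfl
      obtain ⟨v, hv⟩ := Finset.card_pos.1 ht
      obtain ⟨m, hm1, -⟩ := hcon v hv
      have : 0 < 8 ^ m := by positivity
      omega
    have h2 := Finset.card_le_card h1
    have h3 : (2:ℕ) ^ (3 * Nat.log 8 n) ≤ n := by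
      rw [pow_mul]
      exact Nat.pow_log_le_self 8 hn0
    have h4 := (Finset.card_image_le (s := φ (Nat.log 8 n)) (f := fun c => dc c n))
    have h5 := hφ1 (Nat.log 8 n)
    omega)
  obtain ⟨n1, hn1⟩ := hφ2 (x l) (fun z hz => ⟨_, ⟨l, rfl⟩, hz⟩)
  obtain ⟨n, hn, hnS⟩ := hl (8 ^ n1)
  apply hnS
  have hn0 : n ≠ 0 := by
    have : 0 < 8 ^ n1 := by positivity
    omega
  refine ⟨Nat.log 8 n, Nat.pow_log_le_self 8 hn0, Nat.lt_pow_succ_log_self (by norm_num) n,
    x l (Nat.log 8 n), hn1 _ ?_, hdc _ _ _ (Nat.lt_pow_succ_log_self (by norm_num) n)⟩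
  exact Nat.le_log_of_pow_le (by norm_num) hn

/-! ### `#L < b` -/

theorem dom_b {L : Type} (h : Dom L) : #L < bNum := by
  classical
  by_contra hcon
  push Not at hcon
  obtain ⟨F, hF, hFc⟩ : ∃ F : Set (ℕ → ℕ),
      (¬ ∃ g : ℕ → ℕ, ∀ f ∈ F, ∀ᶠ n in atTop, f n ≤ g n) ∧ #F = bNum := by
    refine csInf_mem (s := {κ | ∃ F : Set (ℕ → ℕ),
      (¬ ∃ g : ℕ → ℕ, ∀ f ∈ F, ∀ᶠ n in atTop, f n ≤ g n) ∧ #F = κ}) ⟨_, Set.univ, ?_, rfl⟩
    rintro ⟨g, hg⟩
    obtain ⟨n, hn⟩ := (hg (fun n => g n + 1) (mem_univ _)).exists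
    omega
  rw [← hFc] at hcon
  obtain ⟨e⟩ := hcon
  obtain ⟨g, hg⟩ := h (Function.extend e (fun f : F => (f : ℕ → ℕ)) fun _ _ => 0)
  apply hF
  refine ⟨g, fun f hf => ?_⟩
  obtain ⟨N, hN⟩ := hg (e ⟨f, hf⟩)
  refine eventually_atTop.2 ⟨N, fun n hn => ?_⟩
  have := hN n hn
  rwa [e.injective.extend_apply] at this

/-! ### Strong measure zero sets -/

theorem univ_notMem_sn : (Set.univ : Set (ℕ → Bool)) ∉ StrongNull := by
  intro h
  obtain ⟨s, hs⟩ := h fun n => n + 1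
  obtain ⟨n, hn⟩ := hs (fun n => !(s n ⟨n, Nat.lt_succ_self n⟩)) (mem_univ _)
  have := hn ⟨n, Nat.lt_succ_self n⟩
  simp at this

theorem singleton_sn (x : ℕ → Bool) : {x} ∈ StrongNull := fun f =>
  ⟨fun n i => x i, fun y hy => ⟨0, fun i => by rw [mem_singleton_iff.1 hy]⟩⟩

theorem sUnion_sn : ⋃₀ StrongNull ∉ StrongNull := by
  have : ⋃₀ StrongNull = Set.univ := by
    rw [eq_univ_iff_forall]
    exact fun x => ⟨{x}, singleton_sn x, rfl⟩
  rw [this]
  exact univ_notMem_sn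

theorem find_block {e : ℕ → ℕ} (he : StrictMono e) {m i : ℕ} (h1 : e m ≤ i) (h2 : i < e (m + 1)) :
    Nat.findGreatest (fun m => e m ≤ i) i = m := by
  rw [Nat.findGreatest_eq_iff]
  refine ⟨he.le_apply.trans h1, fun _ => h1, fun n hn _ h => ?_⟩
  have := he.monotone (show m + 1 ≤ n from hn)
  omega

/-- a strong measure zero set is caught infinitely often by one point -/
theorem sn_point {X : Set (ℕ → Bool)} (hX : X ∈ StrongNull) {e : ℕ → ℕ} (he : StrictMono e) :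
    ∃ w : ℕ → Bool, ∀ x ∈ X, ∀ N, ∃ m, N ≤ m ∧ ∀ i, e m ≤ i → i < e (m + 1) → x i = w i := by
  choose s hs using fun N => hX fun i => e (Nat.pair N i + 1)
  let blk : ℕ → ℕ := fun i => Nat.findGreatest (fun m => e m ≤ i) i
  let S : ℕ × ℕ → ℕ → Bool := fun p i =>
    if h : i < e (Nat.pair p.1 p.2 + 1) then s p.1 p.2 ⟨i, h⟩ else false
  have hS : ∀ (p : ℕ × ℕ) (i : ℕ) (h : i < e (Nat.pair p.1 p.2 + 1)),
      S p i = s p.1 p.2 ⟨i, h⟩ := fun p i h => dif_pos h
  refine ⟨fun i => S (Nat.unpair (blk i)) i, fun x hx N => ?_⟩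
  obtain ⟨j, hj⟩ := hs N x hx
  refine ⟨Nat.pair N j, Nat.left_le_pair N j, fun i h1 h2 => ?_⟩
  have hb : blk i = Nat.pair N j := find_block he h1 h2
  show x i = S (Nat.unpair (blk i)) i
  rw [hb, Nat.unpair_pair, hS (N, j) i h2]
  exact hj ⟨i, h2⟩

/-- covering -/
theorem sn_cover {X : Set (ℕ → Bool)} (f u : ℕ → ℕ) (V : ℕ → ℕ → Bool)
    (h : ∀ x ∈ X, ∃ n, ∀ i, u n ≤ i →
      i < ∑ j ∈ Finset.range (∑ j ∈ Finset.range (n + 1), 2 ^ u j), f j → x i = V n i) :
    ∃ s : ∀ n, Fin (f n) → Bool, ∀ x ∈ X, ∃ n, ∀ i : Fin (f n), x i = s n i := by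
  classical
  let a : ℕ → ℕ := fun n => ∑ j ∈ Finset.range n, 2 ^ u j
  have ha : StrictMono a := strictMono_nat_of_lt_succ fun n => by
    simp only [a, Finset.sum_range_succ]
    have : 0 < 2 ^ u n := by positivity
    omega
  have hE : ∀ n, ∃ E : (Fin (u n) → Bool) → ℕ, Function.Injective E ∧ ∀ σ, E σ < 2 ^ u n := by
    intro n
    have h1 : Fintype.card (Fin (u n) → Bool) = 2 ^ u n := by simp
    exact ⟨fun σ => Fintype.equivFin _ σ, fun σ τ hστ =>
      (Fintype.equivFin _).injective (Fin.ext hστ), fun σ => by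
        have := (Fintype.equivFin (Fin (u n) → Bool) σ).isLt
        show (Fintype.equivFin (Fin (u n) → Bool) σ : ℕ) < _
        omega⟩
  choose E hE1 hE2 using hE
  let blk : ℕ → ℕ := fun i => Nat.findGreatest (fun m => a m ≤ i) i
  let s : ∀ n', Fin (f n') → Bool := fun n' i =>
    if u (blk n') ≤ i then V (blk n') i else
      if h : ∃ σ, E (blk n') σ = n' - a (blk n') then
        if h' : (i : ℕ) < u (blk n') then h.choose ⟨i, h'⟩ else false
      else false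
  refine ⟨s, fun x hx => ?_⟩
  obtain ⟨n, hn⟩ := h x hx
  obtain ⟨n', hn'⟩ : ∃ n', n' = a n + E n (fun i => x i) := ⟨_, rfl⟩
  have h1 : a n ≤ n' := by omega
  have h2 : n' < a (n + 1) := by
    have h3 : a (n + 1) = a n + 2 ^ u n := by simp only [a, Finset.sum_range_succ]
    have := hE2 n fun i => x i
    omega
  have hb : blk n' = n := find_block ha h1 h2
  refine ⟨n', fun i => ?_⟩
  simp only [s]
  rw [hb]
  by_cases hi : u n ≤ i
  · rw [if_pos hi]
    refine hn i hi (lt_of_lt_of_le i.isLt ?_)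
    exact Finset.single_le_sum (f := f) (fun _ _ => Nat.zero_le _) (Finset.mem_range.2 h2)
  · rw [if_neg hi]
    have hex : ∃ σ, E n σ = n' - a n := ⟨fun i => x i, by omega⟩
    rw [dif_pos hex, dif_pos (not_le.1 hi)]
    have h3 : hex.choose = fun i : Fin (u n) => x i := hE1 n (by
      rw [hex.choose_spec]
      omega)
    rw [h3]

/-! ### `#K < add(SN)` -/

/-- the recursion for the boundaries -/
def st (f : ℕ → ℕ) : ℕ → ℕ × ℕ
  | 0 => (0, 0)
  | n + 1 => ((st f n).1 + 1 + ∑ j ∈ Finset.range ((st f n).2 + 2 ^ (st f n).1), f j,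
      (st f n).2 + 2 ^ (st f n).1)

theorem st_snd (f : ℕ → ℕ) (n : ℕ) : (st f n).2 = ∑ j ∈ Finset.range n, 2 ^ (st f j).1 := by
  induction n with
  | zero => rfl
  | succ n ih =>
    rw [Finset.sum_range_succ, ← ih]
    rfl

theorem st_mono (f : ℕ → ℕ) : StrictMono fun n => (st f n).1 :=
  strictMono_nat_of_lt_succ fun n => by
    show (st f n).1 < (st f n).1 + 1 + _
    omega

theorem blockCap_add {K : Type} (h : BlockCap K) : #K < addOf StrongNull := by
  classical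
  by_contra hcon
  push Not at hcon
  obtain ⟨F, hF, hFU, hFc⟩ := exists_addOf sUnion_sn
  rw [← hFc] at hcon
  obtain ⟨e⟩ := hcon
  apply hFU
  intro f
  let u : ℕ → ℕ := fun n => (st f n).1
  have hu : StrictMono u := st_mono f
  -- codes of the initial segments
  have hE : ∀ n, ∃ E : (Fin (u (n + 1)) → Bool) → ℕ, Function.Injective E ∧
      ∀ σ, E σ < 2 ^ u (n + 1) := by
    intro n
    have h1 : Fintype.card (Fin (u (n + 1)) → Bool) = 2 ^ u (n + 1) := by simp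
    exact ⟨fun σ => Fintype.equivFin _ σ, fun σ τ hστ =>
      (Fintype.equivFin _).injective (Fin.ext hστ), fun σ => by
        have := (Fintype.equivFin (Fin (u (n + 1)) → Bool) σ).isLt
        show (Fintype.equivFin (Fin (u (n + 1)) → Bool) σ : ℕ) < _
        omega⟩
  choose E hE1 hE2 using hE
  obtain ⟨lam, hlam, hcap⟩ := h fun n => 2 ^ u (n + 1)
  have hlam' : StrictMono lam := strictMono_nat_of_lt_succ hlam
  have hpt : ∀ A : F, ∃ w : ℕ → Bool, ∀ x ∈ (A : Set (ℕ → Bool)), ∀ N, ∃ m, N ≤ m ∧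
      ∀ i, u (lam m) ≤ i → i < u (lam (m + 1)) → x i = w i := fun A =>
    sn_point (hF A.2) (hu.comp hlam')
  choose w hw using hpt
  let w' : K → ℕ → Bool := Function.extend e w fun _ _ => false
  obtain ⟨y, hy⟩ := hcap (fun k n => E n fun i => w' k i) (fun k n => hE2 _ _)
  let V : ℕ → ℕ → Bool := fun n i =>
    if h : i < u (n + 1) then
      if h' : ∃ σ, E n σ = y n then h'.choose ⟨i, h⟩ else false
    else false
  refine sn_cover f u V ?_
  rintro x ⟨A, hA, hxA⟩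
  obtain ⟨N, hN⟩ := hy (e ⟨A, hA⟩)
  obtain ⟨m, hm, hmx⟩ := hw ⟨A, hA⟩ x hxA N
  obtain ⟨n, hn1, hn2, hn3⟩ := hN m hm
  have hwA : w' (e ⟨A, hA⟩) = w ⟨A, hA⟩ := e.injective.extend_apply _ _ _
  refine ⟨n, fun i hi hi' => ?_⟩
  have hi2 : i < u (n + 1) := by
    refine lt_of_lt_of_le hi' ?_
    have h5 : ∑ j ∈ Finset.range (n + 1), 2 ^ u j = (st f n).2 + 2 ^ (st f n).1 := by
      rw [Finset.sum_range_succ, st_snd]
    rw [h5]
    show _ ≤ (st f n).1 + 1 + _
    omega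
  have h6 : V n i = w ⟨A, hA⟩ i := by
    have hex : ∃ σ, E n σ = y n := ⟨_, hn3.symm⟩
    have h7 : hex.choose = fun i : Fin (u (n + 1)) => w' (e ⟨A, hA⟩) i := hE1 n (by
      rw [hex.choose_spec, hn3])
    simp only [V, dif_pos hi2, dif_pos hex, h7, hwA]
  rw [h6]
  refine hmx i ?_ ?_
  · exact (hu.monotone hn1).trans hi
  · exact lt_of_lt_of_le hi2 (hu.monotone (show n + 1 ≤ lam (m + 1) from hn2))

/-! ### `add(SN) ≤ #L` -/

/-- two binary digits -/
def val4 (x : ℕ → Bool) (k : ℕ) : ℕ := 2 * (x (2 * k)).toNat + (x (2 * k + 1)).toNat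

theorem val4_lt (x : ℕ → Bool) (k : ℕ) : val4 x k < 4 := by
  unfold val4
  have h1 := Bool.toNat_lt (x (2 * k))
  have h2 := Bool.toNat_lt (x (2 * k + 1))
  omega

/-- the point with given digits -/
def ofDig (v : ℕ → ℕ) (i : ℕ) : Bool :=
  if i % 2 = 0 then decide (2 ≤ v (i / 2)) else decide (v (i / 2) % 2 = 1)

theorem val4_ofDig (v : ℕ → ℕ) (k : ℕ) (hk : v k < 4) : val4 (ofDig v) k = v k := by
  unfold val4 ofDig
  have h1 : 2 * k % 2 = 0 := by omega
  have h2 : (2 * k + 1) % 2 ≠ 0 := by omega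
  have h3 : 2 * k / 2 = k := by omega
  have h4 : (2 * k + 1) / 2 = k := by omega
  rw [if_pos h1, if_neg h2, h3, h4]
  interval_cases hv : v k <;> simp

theorem val4_eq {x y : ℕ → Bool} {k : ℕ} (h : val4 x k = val4 y k) :
    x (2 * k) = y (2 * k) ∧ x (2 * k + 1) = y (2 * k + 1) := by
  unfold val4 at h
  cases hx1 : x (2 * k) <;> cases hx2 : x (2 * k + 1) <;> cases hy1 : y (2 * k) <;>
    cases hy2 : y (2 * k + 1) <;> simp [hx1, hx2, hy1, hy2] at h ⊢

theorem wit_add {L T : Type} (h : Wit L T) : addOf StrongNull ≤ #L := by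
  classical
  obtain ⟨f, w, hw4, hf, hwit⟩ := h
  let X : L → Set (ℕ → Bool) := fun ξ => {x | ∀ t N, ∃ n, N ≤ n ∧
    ∀ k, n ≤ k → k < n + f t n → val4 x k = w ξ t k}
  have hX : range X ⊆ StrongNull := by
    rintro _ ⟨ξ, rfl⟩
    intro g
    obtain ⟨t, ht⟩ := hf fun n =>
      ∑ j ∈ Finset.range (∑ j ∈ Finset.range (n + 1), 2 ^ (2 * j)), g j
    refine sn_cover g (fun n => 2 * n) (fun _ => ofDig (w ξ t)) ?_
    intro x hx
    obtain ⟨n, -, hn⟩ := hx t 0
    refine ⟨n, fun i hi hi' => ?_⟩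
    rw [ht] at hn
    beta_reduce at hn
    have h1 := hn (i / 2) (by omega) (by
      have : i / 2 ≤ i := Nat.div_le_self _ _
      omega)
    rw [← val4_ofDig (w ξ t) (i / 2) (hw4 _ _ _)] at h1
    have h2 := val4_eq h1
    rcases Nat.mod_two_eq_zero_or_one i with h3 | h3
    · have h4 : 2 * (i / 2) = i := by omega
      rw [h4] at h2
      exact h2.1
    · have h4 : 2 * (i / 2) + 1 = i := by omega
      rw [h4] at h2
      exact h2.2
  refine (addOf_le hX ?_).trans mk_range_le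
  intro hU
  have he : StrictMono fun m : ℕ => 2 * m := fun a b hab => by
    show 2 * a < 2 * b
    omega
  obtain ⟨z, hz⟩ := sn_point hU he
  obtain ⟨ξ, x, hx4, hxy, hfol⟩ := hwit (val4 z) (val4_lt z)
  have hmem : ofDig x ∈ ⋃₀ range X := by
    refine ⟨X ξ, ⟨ξ, rfl⟩, fun t N => ?_⟩
    obtain ⟨n, hn, hk⟩ := hfol t N
    refine ⟨n, hn, fun k h1 h2 => ?_⟩
    rw [val4_ofDig x k (hx4 k)]
    exact hk k h1 h2
  obtain ⟨m, -, hm⟩ := hz _ hmem 0
  apply hxy m
  rw [← val4_ofDig x m (hx4 m)]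
  have h1 := hm (2 * m) le_rfl (by omega)
  have h2 := hm (2 * m + 1) (by omega) (by omega)
  unfold val4
  rw [h1, h2]

end Pool.Agent.R593.Sn
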